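import Pool.Agent.Helper85.Refl.Guess

set_option autoImplicit false

open Cardinal Ordinal Set Filter Helper23.Pcf

universe u v

namespace Helper85.Refl

/-- limit points of unbounded sets form a club -/
theorem club_acc {A : Set Ordinal.{u}} {o : Ordinal.{u}} (ho : ℵ₀ < o.cof) (hA : UnbIn A o) :
    ClubIn {δ | UnbIn A δ} o := by
  classical
  refine ⟨?_, ?_⟩
  · have hg : ∀ x : Ordinal.{u}, ∃ y, x < o → y ∈ A ∧ x < y ∧ y < o := by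
      intro x
      by_cases hx : x < o
      · obtain ⟨y, h⟩ := hA x hx
        exact ⟨y, fun _ => h⟩
      · exact ⟨0, fun h => absurd h hx⟩
    choose g hg using hg
    intro x hx
    obtain ⟨z, hz, hxz, hz'⟩ := exists_iter ho g (fun x hx => (hg x hx).2) x hx
    refine ⟨z, ?_, hxz, hz⟩
    intro w hw
    obtain ⟨v, h1, h2, h3⟩ := hz' w hw
    have h4 := hg v (h1.trans hz)
    exact ⟨g v, h4.1, h2.trans h4.2.1, h3⟩
  · intro δ _ _ hu w hw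
    obtain ⟨y, h1, h2, h3⟩ := hu w hw
    obtain ⟨z, h4, h5, h6⟩ := h1 w h2
    exact ⟨z, h4, h5, h6.trans h3⟩

/-- the data for a limit ordinal `α`, with the index of `|α|` -/
theorem setup' {α : Ordinal.{u}} (hα : Order.IsSuccLimit α) (hne : (aSet α).Nonempty) :
    ∃ (γ : Ordinal.{u}), α.card = ℵ_ γ ∧ γ < α ∧ aSet α = ival (ℵ_ γ) (ℵ_ α) ∧
      #(aSet α) = Cardinal.lift.{u + 1} (α - γ).card ∧ ℵ₀ ≤ (α - γ).card ∧
      (α - γ).card ≤ ℵ_ γ := by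
  have hα0 : ℵ₀ ≤ α.card := by
    rw [Ordinal.aleph0_le_card]
    exact Ordinal.omega0_le_of_isSuccLimit hα
  obtain ⟨γ, hγ'⟩ := Cardinal.mem_range_aleph_iff.2 hα0
  have hγ : α.card = ℵ_ γ := hγ'.symm
  have hγα : γ < α := by
    obtain ⟨κ, hκ⟩ := hne
    rw [← Cardinal.aleph_lt_aleph, hγ']
    exact (Order.succ_le_iff.1 hκ.2.1).trans hκ.2.2
  have hA : aSet α = ival (ℵ_ γ) (ℵ_ α) := aSet_eq hγ
  refine ⟨γ, hγ, hγα, hA, by rw [hA, mk_ival hα hγα], ?_, ?_⟩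
  · rw [Ordinal.aleph0_le_card]
    exact Ordinal.omega0_le_of_isSuccLimit (sub_isSuccLimit hα hγα)
  · rw [← hγ]; exact Ordinal.card_le_card (Ordinal.sub_le_self _ _)

/-- The local character of the generators. -/
theorem not_cover {Y : Set Cardinal.{u}} {G : Cardinal.{u} → Set Cardinal.{u}}
    (hYreg : ∀ m ∈ Y, m.IsRegular)
    (hG1 : ∀ l ∈ pcfS Y, G l ⊆ pcfS Y ∧ pcfS (G l) ⊆ G l ∧ (∀ m ∈ G l, m ≤ l) ∧
        ∀ m ∈ G l, G m ⊆ G l)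
    (hG2 : ∀ Z ⊆ pcfS Y, ∀ l ∈ pcfS Z, l ∈ pcfS (Z ∩ G l))
    {l : Cardinal.{u}} (hl : l ∈ pcfS Y) {F : Set Cardinal.{u}} (hF : F.Finite)
    (hFY : F ⊆ pcfS Y) (hFl : ∀ m ∈ F, m < l) : ¬ Y ∩ G l ⊆ ⋃ m ∈ F, G m := by
  intro hsub
  have h1 : l ∈ pcfS (Y ∩ G l) := hG2 Y (self_subset_pcfS hYreg) _ hl
  obtain ⟨m, hm, h3⟩ := mem_iUnion₂.1 (pcfS_biUnion hF _ (pcfS_mono hsub h1))
  have h4 := hG1 m (hFY hm)
  exact absurd (h4.2.2.1 _ (h4.2.1 h3)) (not_le.2 (hFl m hm))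

/-- A stationary set contains large points whose traces are determined. -/
theorem exists_large {Y : Set Cardinal.{u}} [Small.{u} Y] {lam : Cardinal.{u}}
    (hlam : lam.IsRegular) (hlam0 : ℵ₀ < lam) (hY : #Y < Cardinal.lift.{u+1} lam)
    (N : Cardinal.{u} → Set Ordinal.{u}) (S : Set Ordinal.{u}) :
    ∃ E, ClubIn E lam.ord ∧ ∀ δ ∈ E, δ < lam.ord → δ ∈ S → ∀ x ∈ Y,
      (δ ∈ N x → StatIn (S ∩ N x) lam.ord) ∧ (δ ∉ N x → StatIn (S \ N x) lam.ord) := by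
  classical
  have hcof : ℵ₀ < lam.ord.cof := by rw [hlam.cof_ord]; exact hlam0
  have hlim : Order.IsSuccLimit lam.ord := Cardinal.isSuccLimit_ord hlam.1
  have huniv : ClubIn (Set.univ : Set Ordinal.{u}) lam.ord :=
    ⟨fun y hy => ⟨Order.succ y, trivial, Order.lt_succ y, hlim.succ_lt hy⟩,
      fun _ _ _ _ => trivial⟩
  have hE : ∀ (U : Set Ordinal.{u}), ∃ E : Set Ordinal.{u}, ClubIn E lam.ord ∧
      (¬ StatIn U lam.ord → ∀ δ ∈ E, δ < lam.ord → δ ∉ U) := by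
    intro U
    by_cases hx : StatIn U lam.ord
    · exact ⟨Set.univ, huniv, fun h => absurd hx h⟩
    · simp only [StatIn, not_forall] at hx
      obtain ⟨E, hE, hE'⟩ := hx
      exact ⟨E, hE, fun _ δ h1 h2 h3 => hE' ⟨δ, h3, h1, h2⟩⟩
  choose E hE1 hE2 using hE
  refine ⟨⋂ x ∈ Y, (E (S ∩ N x) ∩ E (S \ N x)), club_iInter_set hcof
    (by rw [hlam.cof_ord]; exact hY) _ (fun x _ => club_inter hcof (hE1 _) (hE1 _)), ?_⟩
  intro δ hδ hδlam hδS x hx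
  have h1 := mem_iInter₂.1 hδ x hx
  constructor
  · intro h
    by_contra hcon
    exact hE2 _ hcon δ h1.1 hδlam ⟨hδS, h⟩
  · intro h
    by_contra hcon
    exact hE2 _ hcon δ h1.2 hδlam ⟨hδS, h⟩

/-- a bound for finitely many cardinals below `ℵ_(θ + λ)` -/
theorem exists_idx_bound {θ : Ordinal.{u}} {o : Ordinal.{u}} (ho : 0 < o)
    {F : Set Cardinal.{u}} (hF : F.Finite) (h0 : ∀ m ∈ F, ℵ₀ ≤ m) (h : ∀ m ∈ F, m < ℵ_ (θ + o)) :
    ∃ b < o, ∀ m ∈ F, m < idx θ b := by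
  have hf : ∀ m : Cardinal.{u}, ∃ b, m ∈ F → b < o ∧ m < idx θ b := by
    intro m
    by_cases hm : m ∈ F
    · obtain ⟨ρ, hρ⟩ := Cardinal.mem_range_aleph_iff.2 (h0 m hm)
      have h1 := h m hm
      rw [← hρ, Cardinal.aleph_lt_aleph] at h1
      refine ⟨ρ - θ, fun _ => ⟨?_, ?_⟩⟩
      · rcases le_or_gt θ ρ with h2 | h2
        · rw [← add_lt_add_iff_left θ, Ordinal.add_sub_cancel_of_le h2]; exact h1
        · rw [Ordinal.sub_eq_zero_iff_le.2 h2.le]; exact ho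
      · rw [← hρ, idx, Cardinal.aleph_lt_aleph, ← Order.succ_eq_add_one, Order.lt_succ_iff]
        exact Ordinal.le_add_sub _ _
    · exact ⟨0, fun h => absurd h hm⟩
  choose f hf using hf
  obtain ⟨b, hb, hb'⟩ := exists_bound (hF.image f) ho (by
    rintro _ ⟨m, hm, rfl⟩
    exact (hf m hm).1)
  refine ⟨b, hb, fun m hm => (hf m hm).2.trans_le (idx_le.2 (hb' _ ⟨m, hm, rfl⟩))⟩

/-- a union of few sets, from the values of the set function -/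
theorem mem_pcfS_good {Y : Set Cardinal.{u}} {G : Cardinal.{u} → Set Cardinal.{u}}
    (hYreg : ∀ m ∈ Y, m.IsRegular)
    (hG1 : ∀ l ∈ pcfS Y, G l ⊆ pcfS Y ∧ pcfS (G l) ⊆ G l ∧ (∀ m ∈ G l, m ≤ l) ∧
        ∀ m ∈ G l, G m ⊆ G l)
    (hG2 : ∀ Z ⊆ pcfS Y, ∀ l ∈ pcfS Z, l ∈ pcfS (Z ∩ G l))
    {l : Cardinal.{u}} (hl : l ∈ pcfS Y) {F : Set Cardinal.{u}} (hF : F.Finite)
    (hFY : F ⊆ pcfS Y) (hFl : ∀ m ∈ F, m < l) {U : Set Cardinal.{u}}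
    (hU : Y ∩ G l ⊆ U ∪ ⋃ m ∈ F, G m) : l ∈ pcfS U := by
  have h1 : l ∈ pcfS (Y ∩ G l) := hG2 Y (self_subset_pcfS hYreg) _ hl
  have h2 := pcfS_mono hU h1
  rw [pcfS_union] at h2
  rcases h2 with h2 | h2
  · exact h2
  · obtain ⟨m, hm, h3⟩ := mem_iUnion₂.1 (pcfS_biUnion hF _ h2)
    have h4 := hG1 m (hFY hm)
    exact absurd (h4.2.2.1 _ (h4.2.1 h3)) (not_le.2 (hFl m hm))

/-- The structure of `pcf(a_α)` when it has at least `λ > |a_α|` elements. -/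
theorem anatomy {α : Ordinal.{u}} {lam : Cardinal.{u}} (hα : Order.IsSuccLimit α)
    (hlam : lam.IsRegular) (hκlam : #(aSet α) < Cardinal.lift.{u+1} lam)
    (hp : Cardinal.lift.{u+1} lam ≤ #(pcf (aSet α))) :
    ∃ (γ : Ordinal.{u}) (N : Cardinal.{u} → Set Ordinal.{u}), α.card = ℵ_ γ ∧
      (∀ x, N x ⊆ Iio lam.ord) ∧
      (∀ δ < lam.ord, ℵ_ (γ + (6 : ℕ) + δ + 1) ∈ pcf (aSet α)) ∧
      (∀ x, ∀ δ < lam.ord, ℵ_ (γ + (6 : ℕ) + δ + 1) ∈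
        pcf ((fun ε => ℵ_ (γ + (6 : ℕ) + ε + 1)) '' N x) ↔ δ ∈ N x) ∧
      (∀ x, ∀ β < lam.ord, ℵ₀ < β.cof → StatIn (N x) β → β ∈ N x) ∧
      (∀ β < lam.ord, ℵ₀ < β.cof → ∃ C ⊆ Iio β, ClubIn C β ∧ (∀ x, ∀ ε ∈ C, ε ∈ N x → β ∈ N x) ∧
        ∀ c ∈ pcf ((fun ε => ℵ_ (γ + (6 : ℕ) + ε + 1)) '' C), c ≤ ℵ_ (γ + (6 : ℕ) + β + 1)) ∧
      (∀ S, StatIn S lam.ord → ∀ B ⊆ Iio lam.ord,
        (∀ c ∈ pcf ((fun ε => ℵ_ (γ + (6 : ℕ) + ε + 1)) '' B), c ≤ ℵ_ (γ + (6 : ℕ) + lam.ord)) →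
        ∃ E, ClubIn E lam.ord ∧ ∀ δ ∈ E, δ < lam.ord → δ ∈ S →
          ℵ_ (γ + (6 : ℕ) + δ + 1) ∈ pcf {x | x ∈ aSet α ∧ StatIn (S ∩ N x) lam.ord ∧
            StatIn (S \ N x) lam.ord ∧ ∀ β ∈ B, β ∉ N x}) ∧
      (∃ E, ClubIn E lam.ord ∧ ∀ δ ∈ E, δ < lam.ord → Cardinal.lift.{u+1} δ.cof ≤ #(aSet α) →
        ∃ y ⊆ Iio δ, #y ≤ #(aSet α) ∧ ∀ ζ < δ, ∃ c ∈
          pcf ((fun ε => ℵ_ (γ + (6 : ℕ) + ε + 1)) '' (y ∩ Ioi ζ)),
            ℵ_ (γ + (6 : ℕ) + lam.ord) < c) := by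
  classical
  have hne : (aSet α).Nonempty := by
    by_contra hcon
    rw [Set.not_nonempty_iff_eq_empty] at hcon
    rw [pcf_aSet, hcon, pcfS_empty] at hp
    simp only [Cardinal.mk_eq_zero, nonpos_iff_eq_zero, Cardinal.lift_eq_zero] at hp
    exact hlam.ne_zero hp
  obtain ⟨γ, hγ, hγα, hA, hAc, h0, hκγ⟩ := setup' hα hne
  have hκlam' : (α - γ).card < lam := by rw [hAc, Cardinal.lift_lt] at hκlam; exact hκlam
  have hp' := hp
  rw [pcf_aSet, hA] at hp'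
  obtain ⟨θ, Y, G, ⟨hθ, hlamθ⟩, hY, hYc, hG1, hG2, hG3, hG4, hidx, hclub⟩ :=
    exists_structure h0 rfl hκγ hα hγα hlam hκlam' hp'
  subst hθ
  have hYA : Y ⊆ aSet α := hY.trans hA.ge
  have hYreg : ∀ m ∈ Y, m.IsRegular := fun m hm => (hY hm).1
  have hYsmall : Small.{u} Y := small_subset hYA
  have hYlam : #Y < Cardinal.lift.{u+1} lam := hYc.trans_lt (Cardinal.lift_lt.2 hκlam')
  have hlam0 : ℵ₀ < lam := h0.trans_lt hκlam'
  have hcof : ℵ₀ < lam.ord.cof := by rw [hlam.cof_ord]; exact hlam0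
  have hlim : Order.IsSuccLimit lam.ord := Cardinal.isSuccLimit_ord hlam.1
  let N : Cardinal.{u} → Set Ordinal.{u} :=
    fun x => {δ | δ < lam.ord ∧ x ∈ Y ∧ x ∈ G (idx (γ + (6 : ℕ)) δ)}
  -- `pcf = pcfS` for sets of indices
  have hsm : ∀ B ⊆ Iio lam.ord, pcf ((fun ε => ℵ_ (γ + (6 : ℕ) + ε + 1)) '' B) =
      pcfS (idx (γ + (6 : ℕ)) '' B) := by
    intro B hB
    have hBsmall : Small.{u} B := small_subset hB
    have h1 : Small.{u} (idx (γ + (6 : ℕ)) '' B) := small_image _ _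
    have h2 : Small.{u} ((fun ε => ℵ_ (γ + (6 : ℕ) + ε + 1)) '' B) := h1
    exact pcf_eq_pcfS (a := (fun ε => ℵ_ (γ + (6 : ℕ) + ε + 1)) '' B) (by
      rintro _ ⟨ε, _, rfl⟩
      exact isRegular_aleph_add_one _)
  have hsA : ∀ U ⊆ aSet α, pcf U = pcfS U := by
    intro U hU
    have : Small.{u} U := small_subset hU
    exact pcf_eq_pcfS fun μ h => (hU h).1
  have hN : ∀ x, N x ⊆ Iio lam.ord := fun x δ h => h.1
  have hsub : ∀ B ⊆ Iio lam.ord, idx (γ + (6 : ℕ)) '' B ⊆ pcfS Y := by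
    rintro B hB _ ⟨ε, hε, rfl⟩
    exact hidx ε (hB hε)
  have hc : ∀ S, StatIn S lam.ord → ∀ B ⊆ Iio lam.ord,
        (∀ c ∈ pcf ((fun ε => ℵ_ (γ + (6 : ℕ) + ε + 1)) '' B), c ≤ ℵ_ (γ + (6 : ℕ) + lam.ord)) →
        ∃ E, ClubIn E lam.ord ∧ ∀ δ ∈ E, δ < lam.ord → δ ∈ S →
          ℵ_ (γ + (6 : ℕ) + δ + 1) ∈ pcf {x | x ∈ aSet α ∧ StatIn (S ∩ N x) lam.ord ∧
            StatIn (S \ N x) lam.ord ∧ ∀ β ∈ B, β ∉ N x} := by
    intro S hS B hB hBc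
    rw [hsm B hB] at hBc
    obtain ⟨F, hF1, hF2, hF3⟩ := hG3 _ (hsub B hB)
    have hFY : F ⊆ pcfS Y := hF2.trans (hG4 _ (hsub B hB) Y subset_rfl (hsub B hB))
    -- the elements of `F` are small
    have hFlt : ∀ m ∈ F, m < ℵ_ (γ + (6 : ℕ) + lam.ord) := by
      intro m hm
      rcases (hBc m (hF2 hm)).eq_or_lt with h | h
      · exfalso
        have h1 : (ℵ_ (γ + (6 : ℕ) + lam.ord)).IsRegular := h ▸ pcfS_isRegular (hFY hm)
        refine absurd h1 (Cardinal.IsSingular.not_isRegular (Cardinal.isSingular_aleph_iff.2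
          ⟨Ordinal.isSuccLimit_add _ hlim, ?_⟩))
        rw [Ordinal.cof_add _ hlim.ne_bot, hlam.cof_ord]
        exact hlamθ.trans_le (Cardinal.aleph_le_aleph.2 le_self_add)
      · exact h
    obtain ⟨b, hb, hFb⟩ := exists_idx_bound hlim.bot_lt hF1
      (fun m hm => (pcfS_isRegular (hFY hm)).1) hFlt
    obtain ⟨E, hE1, hE2⟩ := exists_large hlam hlam0 hYlam N S
    obtain ⟨δ0, hδ0S, ⟨hδ0E, hδ0b⟩, hδ0⟩ := hS _ (club_inter hcof hE1 (club_Ioi hlim hb))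
    refine ⟨E ∩ Ioi δ0, club_inter hcof hE1 (club_Ioi hlim hδ0), ?_⟩
    rintro δ1 ⟨hδ1E, hδ10⟩ hδ1 hδ1S
    rw [hsA _ (fun x hx => hx.1)]
    refine mem_pcfS_good hYreg hG1 hG2 (hidx δ1 hδ1) (F := insert (idx (γ + (6 : ℕ)) δ0) F)
      (hF1.insert _) ?_ ?_ ?_
    · exact Set.insert_subset (hidx _ hδ0) hFY
    · rintro m (rfl | hm)
      · exact idx_lt.2 hδ10
      · exact (hFb m hm).trans (idx_lt.2 (lt_trans hδ0b hδ10))
    · rintro x ⟨hxY, hx⟩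
      rw [Set.biUnion_insert]
      by_cases hx0 : δ0 ∈ N x
      · exact Or.inr (Or.inl hx0.2.2)
      by_cases hxB : ∃ β ∈ B, β ∈ N x
      · right; right
        obtain ⟨β, hβ, hβN⟩ := hxB
        obtain ⟨m, hm, hm'⟩ := mem_iUnion₂.1 (hF3 ⟨β, hβ, rfl⟩)
        exact mem_iUnion₂.2 ⟨m, hm, (hG1 m (hFY hm)).2.2.2 _ hm' hβN.2.2⟩
      · left
        push Not at hxB
        exact ⟨hYA hxY, (hE2 δ1 hδ1E hδ1 hδ1S x hxY).1 ⟨hδ1, hxY, hx⟩,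
          (hE2 δ0 hδ0E hδ0 hδ0S x hxY).2 hx0, hxB⟩
  refine ⟨γ, N, hγ, hN, ?_, ?_, ?_, ?_, hc, ?_⟩
  · intro δ hδ
    rw [pcf_aSet]
    exact pcfS_mono hYA (hidx δ hδ)
  · intro x δ hδ
    rw [hsm _ (hN x)]
    constructor
    · intro h
      have h1 := hG2 _ (hsub _ (hN x)) _ h
      have h2 : (idx (γ + (6 : ℕ)) '' N x ∩ G (idx (γ + (6 : ℕ)) δ)).Nonempty := by
        by_contra hcon
        rw [Set.not_nonempty_iff_eq_empty] at hcon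
        have h3 : ℵ_ (γ + (6 : ℕ) + δ + 1) ∈
          pcfS (idx (γ + (6 : ℕ)) '' N x ∩ G (idx (γ + (6 : ℕ)) δ)) := h1
        rw [hcon, pcfS_empty] at h3
        exact h3
      obtain ⟨_, ⟨ε, hε, rfl⟩, h3⟩ := h2
      exact ⟨hδ, hε.2.1, (hG1 _ (hidx δ hδ)).2.2.2 _ h3 hε.2.2⟩
    · intro h
      refine self_subset_pcfS ?_ ⟨δ, h, rfl⟩
      rintro _ ⟨ε, _, rfl⟩
      exact idx_reg _ _
  · intro x β hβ hβcof hst
    obtain ⟨C, hC, hC'⟩ := hclub β hβ hβcof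
    obtain ⟨δ, h1, h2, h3⟩ := hst C hC
    exact ⟨hβ, h1.2.1, (hG1 _ (hidx β hβ)).2.2.2 _ (hC' δ h2 h3) h1.2.2⟩
  · intro β hβ hβcof
    obtain ⟨C, hC, hC'⟩ := hclub β hβ hβcof
    have hβlam : C ∩ Iio β ⊆ Iio lam.ord := fun ε h => lt_trans h.2 hβ
    refine ⟨C ∩ Iio β, inter_subset_right, ?_, ?_, ?_⟩
    · refine ⟨fun x hx => ?_, fun x hx hx0 hu => ⟨hC.cl x hx hx0 ?_, hx⟩⟩
      · obtain ⟨y, h1, h2, h3⟩ := hC.unb x hx
        exact ⟨y, ⟨h1, h3⟩, h2, h3⟩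
      · intro z hz
        obtain ⟨y, h1, h2, h3⟩ := hu z hz
        exact ⟨y, h1.1, h2, h3⟩
    · rintro x ε ⟨h1, h2⟩ h3
      exact ⟨hβ, h3.2.1, (hG1 _ (hidx β hβ)).2.2.2 _ (hC' ε h1 h2) h3.2.2⟩
    · rw [hsm _ hβlam]
      intro c hc'
      have h1 := hG1 _ (hidx β hβ)
      refine h1.2.2.1 _ (h1.2.1 (pcfS_mono ?_ hc'))
      rintro _ ⟨ε, ⟨h2, h3⟩, rfl⟩
      exact hC' ε h2 h3
  · -- spreading
    have huniv : StatIn (Set.univ : Set Ordinal.{u}) lam.ord := by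
      intro E hE
      obtain ⟨y, h1, _, h3⟩ := hE.unb 0 hlim.bot_lt
      exact ⟨y, trivial, h1, h3⟩
    let T : Set Cardinal.{u} := {x | x ∈ aSet α ∧ StatIn (N x) lam.ord}
    have hTA : T ⊆ aSet α := fun x h => h.1
    have hunb : ∀ x ∈ T, UnbIn (N x) lam.ord := by
      intro x hx z hz
      obtain ⟨y, h1, h2, h3⟩ := hx.2 _ (club_Ioi hlim hz)
      exact ⟨y, h1, h2, h3⟩
    let E' : Cardinal.{u} → Set Ordinal.{u} :=
      fun x => if x ∈ T then {δ | UnbIn (N x) δ} else Set.univ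
    have hE' : ∀ x, ClubIn (E' x) lam.ord := by
      intro x
      by_cases hx : x ∈ T
      · simp only [E', if_pos hx]
        exact club_acc hcof (hunb x hx)
      · simp only [E', if_neg hx]
        exact ⟨fun y hy => ⟨Order.succ y, trivial, Order.lt_succ y, hlim.succ_lt hy⟩,
          fun _ _ _ _ => trivial⟩
    refine ⟨(⋂ x ∈ aSet α, E' x) ∩ {i | Order.IsSuccLimit i}, club_inter hcof
      (club_iInter_set hcof (by rw [hlam.cof_ord]; exact hκlam) E' (fun x _ => hE' x))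
      (club_limits hcof), ?_⟩
    rintro δ ⟨hδ1, hδ2⟩ hδ hδcof
    obtain ⟨D, hD1, hD2, hD3⟩ := exists_small_club (show Order.IsSuccLimit δ from hδ2)
    have hpick : ∀ (x : Cardinal.{u}) (d : Ordinal.{u}), ∃ ε, x ∈ T → d < δ →
        ε ∈ N x ∧ d < ε ∧ ε < δ := by
      intro x d
      by_cases hx : x ∈ T
      · by_cases hd : d < δ
        · have h1 := mem_iInter₂.1 hδ1 x (hTA hx)
          simp only [E', if_pos hx] at h1
          obtain ⟨ε, h2, h3, h4⟩ := h1 d hd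
          exact ⟨ε, fun _ _ => ⟨h2, h3, h4⟩⟩
        · exact ⟨0, fun _ h => absurd h hd⟩
      · exact ⟨0, fun h => absurd h hx⟩
    choose pick hpick using hpick
    have hAinf : ℵ₀ ≤ #(aSet α) := by rw [hAc]; exact Cardinal.aleph0_le_lift.2 h0
    refine ⟨(fun z : Cardinal.{u} × Ordinal.{u} => pick z.1 z.2) '' (T ×ˢ D), ?_, ?_, ?_⟩
    · rintro _ ⟨⟨x, d⟩, ⟨hx, hd⟩, rfl⟩
      exact (hpick x d hx (hD2 hd)).2.2
    · refine Cardinal.mk_image_le.trans ?_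
      rw [Cardinal.mk_setProd]
      exact (mul_le_mul' (Cardinal.mk_le_mk_of_subset hTA) (hD3.trans hδcof)).trans
        (Cardinal.mul_eq_self hAinf).le
    · intro ζ hζ
      by_contra hcon
      push Not at hcon
      obtain ⟨E2, hE2, hE2'⟩ := hc _ huniv
        ((fun z : Cardinal.{u} × Ordinal.{u} => pick z.1 z.2) '' (T ×ˢ D) ∩ Ioi ζ) (by
          rintro _ ⟨⟨⟨x, d⟩, ⟨hx, hd⟩, rfl⟩, _⟩
          exact (hpick x d hx (hD2 hd)).2.2.trans hδ) hcon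
      obtain ⟨z, hz1, _, hz2⟩ := hE2.unb 0 hlim.bot_lt
      have hz3 := hE2' z hz1 hz2 trivial
      obtain ⟨x, hxA, hx1, _, hx2⟩ : {x | x ∈ aSet α ∧ StatIn (Set.univ ∩ N x) lam.ord ∧
          StatIn (Set.univ \ N x) lam.ord ∧ ∀ β ∈
            (fun z : Cardinal.{u} × Ordinal.{u} => pick z.1 z.2) '' (T ×ˢ D) ∩ Ioi ζ,
              β ∉ N x}.Nonempty := by
        by_contra hcon'
        rw [Set.not_nonempty_iff_eq_empty] at hcon'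
        rw [hcon', hsA ∅ (Set.empty_subset _), pcfS_empty] at hz3
        exact hz3
      rw [Set.univ_inter] at hx1
      obtain ⟨d, hd1, hd2, hd3⟩ := hD1.unb ζ hζ
      have hxT : x ∈ T := ⟨hxA, hx1⟩
      have h5 := hpick x d hxT hd3
      exact hx2 _ ⟨⟨⟨x, d⟩, ⟨hxT, hd1⟩, rfl⟩, hd2.trans h5.2.1⟩ h5.1

end Helper85.Refl
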