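import Pool.Agent.Helper23.Pcf.Run

/-!
Call a limit ordinal `α` a counterexample if `|pcf(a_α)| > |a_α|`.

(1) Let `α` be a counterexample, `|α| = ℵ_γ` and `μ = |pcf(a_α)|`.  Then `μ ≤ |a_α|^{+3}`, every limit
ordinal `δ` with `α ≤ δ < γ + μ` is a counterexample (with `|a_δ| < |pcf(a_δ)| = μ`), and the limit
ordinal `γ + μ` is not a counterexample: `|a_{γ+μ}| = |pcf(a_{γ+μ})| = μ`.

(2) For every infinite cardinal `κ` at least one of the initial ordinals `κ, κ⁺, κ⁺⁺, κ⁺⁺⁺` is not a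
counterexample.
-/

set_option autoImplicit false

open Cardinal Helper23.Pcf

universe u

namespace Helper85.Refl

theorem runs :
    (∀ α : Ordinal.{u}, Order.IsSuccLimit α → #(aSet α) < #(pcf (aSet α)) →
      ∃ (γ : Ordinal.{u}) (μ : Cardinal.{u}), α.card = ℵ_ γ ∧
        #(pcf (aSet α)) = Cardinal.lift.{u + 1} μ ∧
        Cardinal.lift.{u + 1} μ ≤ Order.succ (Order.succ (Order.succ #(aSet α))) ∧
        α < γ + μ.ord ∧ Order.IsSuccLimit (γ + μ.ord) ∧
        (∀ δ : Ordinal.{u}, Order.IsSuccLimit δ → α ≤ δ → δ < γ + μ.ord →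
          #(aSet δ) < #(pcf (aSet δ)) ∧ #(pcf (aSet δ)) = Cardinal.lift.{u + 1} μ) ∧
        #(aSet (γ + μ.ord)) = Cardinal.lift.{u + 1} μ ∧
        #(pcf (aSet (γ + μ.ord))) = Cardinal.lift.{u + 1} μ) ∧
    (∀ κ : Cardinal.{u}, ℵ₀ ≤ κ →
      ∃ μ ∈ ({κ, Order.succ κ, Order.succ (Order.succ κ), Order.succ (Order.succ (Order.succ κ))} :
        Set Cardinal.{u}), #(pcf (aSet μ.ord)) ≤ #(aSet μ.ord)) := by
  have main : ∀ α : Ordinal.{u}, Order.IsSuccLimit α → #(aSet α) < #(pcf (aSet α)) →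
      ∃ (γ : Ordinal.{u}) (μ : Cardinal.{u}), α.card = ℵ_ γ ∧ γ < α ∧ (α - γ).card < μ ∧
        #(pcf (aSet α)) = Cardinal.lift.{u + 1} μ ∧
        Cardinal.lift.{u + 1} μ ≤ Order.succ (Order.succ (Order.succ #(aSet α))) ∧
        α < γ + μ.ord ∧ Order.IsSuccLimit (γ + μ.ord) ∧
        (∀ δ : Ordinal.{u}, Order.IsSuccLimit δ → α ≤ δ → δ < γ + μ.ord →
          #(aSet δ) < #(pcf (aSet δ)) ∧ #(pcf (aSet δ)) = Cardinal.lift.{u + 1} μ) ∧
        #(aSet (γ + μ.ord)) = Cardinal.lift.{u + 1} μ ∧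
        #(pcf (aSet (γ + μ.ord))) = Cardinal.lift.{u + 1} μ := by
    intro α hα h
    have hα0 : ℵ₀ ≤ α.card := by
      rw [Ordinal.aleph0_le_card]
      exact Ordinal.omega0_le_of_isSuccLimit hα
    obtain ⟨γ, hγ⟩ := Cardinal.mem_range_aleph_iff.2 hα0
    have hne : (aSet α).Nonempty := by
      by_contra hcon
      rw [Set.not_nonempty_iff_eq_empty] at hcon
      rw [pcf_aSet, hcon, pcfS_empty] at h
      exact lt_irrefl _ h
    have hlt : γ < α := by
      obtain ⟨κ, hκ⟩ := hne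
      rw [← Cardinal.aleph_lt_aleph, hγ]
      exact (Order.succ_le_iff.1 hκ.2.1).trans hκ.2.2
    obtain ⟨h1, μ, h2, h3, h4, h5⟩ := run_thm hα hγ.symm hlt
    have h6 : (α - γ).card < μ := by
      rw [pcf_aSet, h1, h2, Cardinal.lift_lt] at h
      exact h
    obtain ⟨g1, g2, g3, g4, g5⟩ := h5 h6
    refine ⟨γ, μ, hγ.symm, hlt, h6, by rw [pcf_aSet]; exact h2, ?_, g1, g2, ?_, g5, ?_⟩
    · rw [h1, ← Cardinal.lift_succ, ← Cardinal.lift_succ, ← Cardinal.lift_succ]
      exact Cardinal.lift_le.2 h4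
    · intro δ d1 d2 d3
      rw [pcf_aSet, g3 δ d1 d2 d3.le]
      exact ⟨g4 δ d1 d2 d3, rfl⟩
    · rw [pcf_aSet]; exact g3 _ g2 g1.le le_rfl
  refine ⟨fun α hα h => ?_, fun κ hκ => ?_⟩
  · obtain ⟨γ, μ, h1, _, _, h2⟩ := main α hα h
    exact ⟨γ, μ, h1, h2⟩
  · by_cases h : #(pcf (aSet κ.ord)) ≤ #(aSet κ.ord)
    · exact ⟨κ, Or.inl rfl, h⟩
    · push Not at h
      obtain ⟨γ, μ, h1, h2, h3, h4, h5, h6, h7, h8, h9, h10⟩ :=
        main κ.ord (Cardinal.isSuccLimit_ord hκ) h
      have hcard : (κ.ord - γ).card = κ := by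
        apply le_antisymm
        · have := Ordinal.card_le_card (Ordinal.sub_le_self κ.ord γ)
          rwa [Cardinal.card_ord] at this
        · have h11 := Ordinal.card_le_card (Ordinal.le_add_sub κ.ord γ)
          rw [Cardinal.card_ord, Ordinal.card_add] at h11
          by_contra hcon
          push Not at hcon
          have h12 : γ.card < κ := Cardinal.lt_ord.1 h2
          exact absurd (h11.trans_lt (Cardinal.add_lt_of_lt hκ h12 hcon)) (lt_irrefl _)
      rw [hcard] at h3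
      have hγμ : γ + μ.ord = μ.ord := by
        apply le_antisymm
        · have h13 : γ < μ.ord := h2.trans (Cardinal.ord_lt_ord.2 h3)
          have h14 := (Ordinal.isPrincipal_add_ord (hκ.trans h3.le))
          exact (h14.add_eq_right h13).le
        · exact le_add_self
      rw [hγμ] at h9 h10
      have hup : μ ≤ Order.succ (Order.succ (Order.succ κ)) := by
        have h15 : #(aSet κ.ord) ≤ Cardinal.lift.{u+1} κ := by
          rw [aSet_eq h1, mk_ival (Cardinal.isSuccLimit_ord hκ) h2, hcard]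
        have h16 : Order.succ (Order.succ (Order.succ #(aSet κ.ord))) ≤
            Cardinal.lift.{u+1} (Order.succ (Order.succ (Order.succ κ))) := by
          rw [Cardinal.lift_succ, Cardinal.lift_succ, Cardinal.lift_succ]
          exact Order.succ_le_succ (Order.succ_le_succ (Order.succ_le_succ h15))
        exact Cardinal.lift_le.1 (h5.trans h16)
      refine ⟨μ, ?_, by rw [h9, h10]⟩
      have h17 : Order.succ κ ≤ μ := Order.succ_le_of_lt h3
      rcases h17.eq_or_lt with h | h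
      · exact Or.inr (Or.inl h.symm)
      have h18 : Order.succ (Order.succ κ) ≤ μ := Order.succ_le_of_lt h
      rcases h18.eq_or_lt with h | h
      · exact Or.inr (Or.inr (Or.inl h.symm))
      exact Or.inr (Or.inr (Or.inr (le_antisymm hup (Order.succ_le_of_lt h))))

end Helper85.Refl
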