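import Pool.Agent.Helper85.Refl.Anatomy

set_option autoImplicit false

open Cardinal Ordinal Set Filter Helper23.Pcf

universe u v

namespace Helper85.Refl

/-- a set of more than `κ` ordinals contains an increasing sequence of length `κ⁺` -/
theorem exists_increasing {κ : Cardinal.{u}} {X : Set Ordinal.{u}} {o : Ordinal.{u}}
    (hXo : X ⊆ Iio o) (hX : Cardinal.lift.{u+1} κ < #X) :
    ∃ e : Ordinal.{u} → Ordinal.{u}, (∀ i < (Order.succ κ).ord, ∀ j < i, e j < e i) ∧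
      ∀ i < (Order.succ κ).ord, e i ∈ X := by
  have hub : ¬ BddAbove (X ∪ Ici o) := by
    rintro ⟨b, hb⟩
    have h1 : Order.succ (max b o) ∈ X ∪ Ici o :=
      Or.inr ((le_max_right b o).trans (Order.le_succ _))
    exact absurd (hb h1) (not_le.2 (Order.lt_succ_iff.2 (le_max_left b o)))
  refine ⟨Ordinal.enumOrd (X ∪ Ici o), fun i _ j hj => Ordinal.enumOrd_strictMono hub hj, ?_⟩
  intro i hi
  by_contra hcon
  have h1 : o ≤ Ordinal.enumOrd (X ∪ Ici o) i :=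
    (Ordinal.enumOrd_mem hub i).resolve_left hcon
  have h2 : X ⊆ Ordinal.enumOrd (X ∪ Ici o) '' Iio i := by
    intro x hx
    obtain ⟨b, rfl⟩ := Ordinal.enumOrd_surjective hub (Or.inl hx)
    refine ⟨b, ?_, rfl⟩
    exact (Ordinal.enumOrd_strictMono hub).lt_iff_lt.1 ((hXo hx).trans_le h1)
  have h3 : #X ≤ Cardinal.lift.{u+1} κ := by
    refine (Cardinal.mk_le_mk_of_subset h2).trans (Cardinal.mk_image_le.trans ?_)
    rw [Cardinal.mk_Iio_ordinal, Cardinal.lift_le]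
    exact Order.lt_succ_iff.1 (Cardinal.lt_ord.1 hi)
  exact absurd hX (not_lt.2 h3)

/-- Every family of `μ` subsets of `μ` of size greater than `κ` is avoided by a club. -/
theorem no_subset {α : Ordinal.{u}} {κ μ : Cardinal.{u}} (hα : Order.IsSuccLimit α)
    (hκ : #(aSet α) = Cardinal.lift.{u+1} κ) (hμ : μ.IsRegular) (hκμ : κ < μ)
    (hp : Cardinal.lift.{u+1} (Order.succ μ) ≤ #(pcf (aSet α)))
    {𝓕 : Set (Set Ordinal.{u})} (h𝓕 : #𝓕 ≤ Cardinal.lift.{u+1} μ)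
    (hX : ∀ X ∈ 𝓕, Cardinal.lift.{u+1} κ < #X) :
    ∃ D ⊆ Iio μ.ord, ClubIn D μ.ord ∧ ∀ X ∈ 𝓕, ¬ X ⊆ D := by
  classical
  have he : ∀ X : Set Ordinal.{u}, ∃ e : Ordinal.{u} → Ordinal.{u}, X ∈ 𝓕 → X ⊆ Iio μ.ord →
      (∀ i < (Order.succ κ).ord, ∀ j < i, e j < e i) ∧ ∀ i < (Order.succ κ).ord, e i ∈ X := by
    intro X
    by_cases h1 : X ∈ 𝓕
    · by_cases h2 : X ⊆ Iio μ.ord
      · obtain ⟨e, he⟩ := exists_increasing h2 (hX X h1)
        exact ⟨e, fun _ _ => he⟩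
      · exact ⟨id, fun _ h => absurd h h2⟩
    · exact ⟨id, fun h => absurd h h1⟩
  choose e he using he
  have hμ0 : ℵ₀ ≤ Cardinal.lift.{u+1} μ := Cardinal.aleph0_le_lift.2 hμ.1
  have hcard : #((fun z : Set Ordinal.{u} × Ordinal.{u} => e z.1 '' Iio z.2) ''
      (𝓕 ×ˢ Iio (Order.succ κ).ord)) ≤ Cardinal.lift.{u+1} μ := by
    refine Cardinal.mk_image_le.trans ?_
    rw [Cardinal.mk_setProd, Cardinal.mk_Iio_ordinal, Cardinal.card_ord]
    refine (mul_le_mul' h𝓕 (Cardinal.lift_le.2 (Order.succ_le_of_lt hκμ))).trans ?_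
    exact (Cardinal.mul_eq_self hμ0).le
  obtain ⟨D, hD, hD'⟩ := no_guessing hα hκ hμ hκμ hp hcard
  refine ⟨D ∩ Iio μ.ord, inter_subset_right, ?_, ?_⟩
  · refine ⟨fun x hx => ?_, fun x hx hx0 hu => ⟨hD.cl x hx hx0 ?_, hx⟩⟩
    · obtain ⟨y, h1, h2, h3⟩ := hD.unb x hx
      exact ⟨y, ⟨h1, h3⟩, h2, h3⟩
    · intro z hz
      obtain ⟨y, h1, h2, h3⟩ := hu z hz
      exact ⟨y, h1.1, h2, h3⟩
  · intro X hXF hXD
    have h1 := he X hXF (hXD.trans inter_subset_right)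
    obtain ⟨ε, hε, h2⟩ := hD' (e X) h1.1 (fun i hi => hXD (h1.2 i hi))
    exact h2 ⟨(X, ε), ⟨hXF, hε⟩, rfl⟩

/-- the dominating number of `κ⁺` -/
theorem no_unbounded {α : Ordinal.{u}} {κ μ : Cardinal.{u}} (hα : Order.IsSuccLimit α)
    (hκ : #(aSet α) = Cardinal.lift.{u+1} κ) (hμ : μ.IsRegular) (hκ0 : ℵ₀ ≤ κ)
    (hκμ : Order.succ κ < μ)
    (hp : Cardinal.lift.{u+1} (Order.succ μ) ≤ #(pcf (aSet α)))
    {𝓕 : Set (Set Ordinal.{u})} (h𝓕 : #𝓕 ≤ Cardinal.lift.{u+1} μ)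
    (hX : ∀ X ∈ 𝓕, X ⊆ Iio (Order.succ κ).ord ∧ UnbIn X (Order.succ κ).ord) :
    ∃ D ⊆ Iio (Order.succ κ).ord, ClubIn D (Order.succ κ).ord ∧ ∀ X ∈ 𝓕, ¬ X ⊆ D := by
  classical
  by_contra hcon
  push Not at hcon
  have hreg : (Order.succ κ).IsRegular := Cardinal.isRegular_succ hκ0
  have hcofs : ℵ₀ < (Order.succ κ).ord.cof := by
    rw [hreg.cof_ord]; exact hκ0.trans_lt (Order.lt_succ κ)
  have hlims : Order.IsSuccLimit (Order.succ κ).ord := Cardinal.isSuccLimit_ord hreg.1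
  have hμlim : Order.IsSuccLimit μ.ord := Cardinal.isSuccLimit_ord hμ.1
  have hc : ∀ δ : Ordinal.{u}, ∃ (Φ : Ordinal.{u} → (Ordinal.{u} → Ordinal.{u}) → Ordinal.{u})
      (ξ : Ordinal.{u} → Ordinal.{u}), IsCont Φ ξ ∧ (δ.cof = Order.succ κ →
        ξ (Order.succ κ).ord = δ) := by
    intro δ
    by_cases h : δ.cof = Order.succ κ
    · have hδ : Order.IsSuccLimit δ := Ordinal.one_lt_cof_iff.1 (by
        rw [h]; exact one_lt_aleph0.trans (hκ0.trans_lt (Order.lt_succ κ)))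
      obtain ⟨Φ, ξ, h1, h2⟩ := exists_cont_cofinal hδ
      exact ⟨Φ, ξ, h1, fun _ => by rw [← h]; exact h2⟩
    · obtain ⟨ξ, hξ⟩ := exists_cont (fun _ _ => 0)
      exact ⟨_, ξ, hξ, fun h' => absurd h' h⟩
  choose Φ c hc1 hc2 using hc
  have hμ0 : ℵ₀ ≤ Cardinal.lift.{u+1} μ := Cardinal.aleph0_le_lift.2 hμ.1
  have hcinj : ∀ δ, Function.Injective (c δ) := by
    intro δ x y h
    rcases lt_trichotomy x y with h' | h' | h'
    · exact absurd h (cont_lt (hc1 δ) h').ne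
    · exact h'
    · exact absurd h (cont_lt (hc1 δ) h').ne'
  obtain ⟨D, hDμ, hD, hD'⟩ := no_subset hα hκ hμ ((Order.lt_succ κ).trans hκμ) hp
    (𝓕 := (fun z : Set Ordinal.{u} × Ordinal.{u} => c z.2 '' z.1) '' (𝓕 ×ˢ Iio μ.ord)) (by
      refine Cardinal.mk_image_le.trans ?_
      rw [Cardinal.mk_setProd, Cardinal.mk_Iio_ordinal, Cardinal.card_ord]
      exact (mul_le_mul' h𝓕 le_rfl).trans (Cardinal.mul_eq_self hμ0).le) (by
      rintro _ ⟨⟨X, δ⟩, ⟨hX1, _⟩, rfl⟩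
      rw [Cardinal.mk_image_eq (hcinj δ)]
      by_contra hcard
      push Not at hcard
      have h1 : supOn X (Order.succ κ).ord id < (Order.succ κ).ord := by
        refine supOn_lt ?_ fun i _ hi => hi
        rw [hreg.cof_ord]
        exact hcard.trans_lt (Cardinal.lift_lt.2 (Order.lt_succ κ))
      obtain ⟨y, h2, h3, h4⟩ := (hX X hX1).2 _ h1
      exact absurd (le_supOn (G := id) h2 h4) (not_le.2 h3))
  -- a limit point of `D` of cofinality `κ⁺`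
  have hnx : ∀ x : Ordinal.{u}, ∃ y, x < μ.ord → y ∈ D ∧ x < y ∧ y < μ.ord := by
    intro x
    by_cases hx : x < μ.ord
    · obtain ⟨y, h⟩ := hD.unb x hx
      exact ⟨y, fun _ => h⟩
    · exact ⟨0, fun h => absurd h hx⟩
  choose nx hnx using hnx
  obtain ⟨ξ, hξ⟩ := exists_cont (fun j ζ => if ζ j < μ.ord then nx (ζ j) else 0)
  have hξμ : ∀ i < Order.succ (Order.succ κ).ord, ξ i < μ.ord := by
    refine cont_bound hξ hμlim ?_ ?_
    · intro i _ ζ hζ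
      rw [if_pos (hζ i)]
      exact (hnx _ (hζ i)).2.2
    · intro i hi
      have := Ordinal.card_le_card (Order.lt_succ_iff.1 hi)
      rw [Cardinal.card_ord] at this
      rw [hμ.cof_ord]
      exact this.trans_lt hκμ
  set δ := ξ (Order.succ κ).ord with hδ
  have hδμ : δ < μ.ord := hξμ _ (Order.lt_succ _)
  have hδcof : δ.cof = Order.succ κ := by rw [hδ, cont_cof hξ hlims, hreg.cof_ord]
  have hδunb : UnbIn D δ := by
    intro x hx
    obtain ⟨j, hj, hxj⟩ := cont_limit hξ hlims.isSuccPrelimit hx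
    have hjμ : ξ j < μ.ord := hξμ j (hj.trans (Order.lt_succ _))
    have h1 := cont_step hξ (Order.lt_succ j)
    simp only [le_refl, if_true, if_pos hjμ] at h1
    have h2 := hnx _ hjμ
    refine ⟨nx (ξ j), h2.1, hxj.trans h2.2.1, h1.trans_lt (cont_lt hξ (hlims.succ_lt hj))⟩
  have hδ0 : 0 < δ := (zero_le).trans_lt (cont_lt hξ hlims.bot_lt)
  have hclub : ClubIn D (c δ (Order.succ κ).ord) := by
    rw [hc2 δ hδcof]
    exact ⟨hδunb, fun x hx hx0 hu => hD.cl x (hx.trans hδμ) hx0 hu⟩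
  have h3 := club_preimage (hc1 δ) hcofs hclub
  obtain ⟨X, hXF, hXD⟩ := hcon ({i | c δ i ∈ D} ∩ Iio (Order.succ κ).ord) inter_subset_right (by
    refine ⟨fun x hx => ?_, fun x hx hx0 hu => ⟨h3.cl x hx hx0 ?_, hx⟩⟩
    · obtain ⟨y, h1, h2, h3⟩ := h3.unb x hx
      exact ⟨y, ⟨h1, h3⟩, h2, h3⟩
    · intro z hz
      obtain ⟨y, h1, h2, h3⟩ := hu z hz
      exact ⟨y, h1.1, h2, h3⟩)
  refine hD' _ ⟨(X, δ), ⟨hXF, hδμ⟩, rfl⟩ ?_
  rintro _ ⟨i, hi, rfl⟩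
  exact (hXD hi).1

end Helper85.Refl
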