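import Pool.Agent.Helper85.Refl.Appr

set_option autoImplicit false

open Cardinal Ordinal Set Filter Helper23.Pcf

universe u v

namespace Helper85.Refl

/-- `f ≤ g` from some point on -/
def EvLe {X : Type u} [LE X] (f g : X → X) : Prop := ∃ i₀, ∀ i, i₀ ≤ i → f i ≤ g i

/-- the bounding number of `κ⁺` -/
noncomputable def bNum (κ : Cardinal.{u}) : Cardinal.{u} :=
  sInf {c | ∃ F : Set ((Order.succ κ).ord.ToType → (Order.succ κ).ord.ToType),
    #F = c ∧ ¬ ∃ g, ∀ f ∈ F, EvLe f g}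

/-- the dominating number of `κ⁺` -/
noncomputable def dNum (κ : Cardinal.{u}) : Cardinal.{u} :=
  sInf {c | ∃ F : Set ((Order.succ κ).ord.ToType → (Order.succ κ).ord.ToType),
    #F = c ∧ ∀ f, ∃ g ∈ F, EvLe f g}

/-- the points of cofinality `τ` form a stationary set -/
theorem stat_cof {τ lam : Cardinal.{u}} (hτ : τ.IsRegular) (hlam : lam.IsRegular)
    (hτlam : τ < lam) : StatIn {β : Ordinal.{u} | β.cof = τ} lam.ord := by
  classical
  intro D hD
  have hlamlim : Order.IsSuccLimit lam.ord := Cardinal.isSuccLimit_ord hlam.1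
  have hτlim : Order.IsSuccLimit τ.ord := Cardinal.isSuccLimit_ord hτ.1
  have hnx : ∀ x : Ordinal.{u}, ∃ y, x < lam.ord → y ∈ D ∧ x < y ∧ y < lam.ord := by
    intro x
    by_cases hx : x < lam.ord
    · obtain ⟨y, h⟩ := hD.unb x hx
      exact ⟨y, fun _ => h⟩
    · exact ⟨0, fun h => absurd h hx⟩
  choose nx hnx using hnx
  obtain ⟨ξ, hξ⟩ := exists_cont (fun j ζ => if ζ j < lam.ord then nx (ζ j) else 0)
  have hξμ : ∀ i < Order.succ τ.ord, ξ i < lam.ord := by
    refine cont_bound hξ hlamlim ?_ ?_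
    · intro i _ ζ hζ
      rw [if_pos (hζ i)]
      exact (hnx _ (hζ i)).2.2
    · intro i hi
      have := Ordinal.card_le_card (Order.lt_succ_iff.1 hi)
      rw [Cardinal.card_ord] at this
      rw [hlam.cof_ord]
      exact this.trans_lt hτlam
  have hδμ : ξ τ.ord < lam.ord := hξμ _ (Order.lt_succ _)
  refine ⟨ξ τ.ord, ?_, ?_, hδμ⟩
  · show (ξ τ.ord).cof = τ
    rw [cont_cof hξ hτlim, hτ.cof_ord]
  · refine hD.cl _ hδμ ((zero_le).trans_lt (cont_lt hξ hτlim.bot_lt)) ?_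
    intro x hx
    obtain ⟨j, hj, hxj⟩ := cont_limit hξ hτlim.isSuccPrelimit hx
    have hjμ : ξ j < lam.ord := hξμ j (hj.trans (Order.lt_succ _))
    have h1 := cont_step hξ (Order.lt_succ j)
    simp only [le_refl, if_true, if_pos hjμ] at h1
    have h2 := hnx _ hjμ
    exact ⟨nx (ξ j), h2.1, hxj.trans h2.2.1, h1.trans_lt (cont_lt hξ (hτlim.succ_lt hj))⟩

/-- The bounding and the dominating number. -/
theorem b_le_d_ge {κ lam : Cardinal.{u}} (h0 : ℵ₀ ≤ κ) (hlam : lam.IsRegular)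
    (hκlam : Order.succ κ < lam) {T : Set Ordinal.{u}} (hT : StatIn T lam.ord)
    {D : Ordinal.{u} → Set Ordinal.{u}}
    (hD : ∀ β, D β ⊆ Iio (Order.succ κ).ord ∧ ClubIn (D β) (Order.succ κ).ord)
    (hD' : ∀ C, UnbIn C (Order.succ κ).ord → ¬ StatIn {β | β ∈ T ∧ ∃ ε < (Order.succ κ).ord,
        ∀ i ∈ C, ε ≤ i → i < (Order.succ κ).ord → i ∈ D β} lam.ord) :
    bNum κ ≤ lam ∧ lam ≤ dNum κ := by
  classical
  have hreg : (Order.succ κ).IsRegular := Cardinal.isRegular_succ h0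
  have hlim : Order.IsSuccLimit (Order.succ κ).ord := Cardinal.isSuccLimit_ord hreg.1
  have hcof : ℵ₀ < (Order.succ κ).ord.cof := by
    rw [hreg.cof_ord]; exact h0.trans_lt (Order.lt_succ κ)
  have hlamcof : ℵ₀ < lam.ord.cof := by
    rw [hlam.cof_ord]; exact h0.trans_lt ((Order.lt_succ κ).trans hκlam)
  -- the functions
  have hnx : ∀ (β : Ordinal.{u}) (x : Iio (Order.succ κ).ord), ∃ y : Iio (Order.succ κ).ord,
      y.1 ∈ D β ∧ x < y := by
    intro β x
    obtain ⟨y, h1, h2, h3⟩ := (hD β).2.unb x.1 x.2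
    exact ⟨⟨y, h3⟩, h1, h2⟩
  choose nx hnx1 hnx2 using hnx
  let f : Ordinal.{u} → (Order.succ κ).ord.ToType → (Order.succ κ).ord.ToType :=
    fun β x => ToType.mk (nx β (ToType.mk.symm x))
  have key : ∀ g : (Order.succ κ).ord.ToType → (Order.succ κ).ord.ToType,
      ¬ StatIn {β | β ∈ T ∧ EvLe (f β) g} lam.ord := by
    intro g hg
    let g' : Ordinal.{u} → Ordinal.{u} := fun o =>
      if h : o < (Order.succ κ).ord then (ToType.mk.symm (g (ToType.mk ⟨o, h⟩))).1 else 0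
    have hg'lt : ∀ o, g' o < (Order.succ κ).ord := by
      intro o
      simp only [g']
      split_ifs with h
      · exact (ToType.mk.symm (g (ToType.mk ⟨o, h⟩))).2
      · exact hlim.bot_lt
    have hC : ClubIn {i | ∀ j < i, i ∈ Ioi (g' j)} (Order.succ κ).ord := by
      refine club_diag hcof (fun x hx => ?_) (fun j => Ioi (g' j)) fun j _ =>
        club_Ioi hlim (hg'lt j)
      rw [hreg.cof_ord]
      exact Cardinal.lt_ord.1 hx
    refine hD' _ hC.unb (hg.mono ?_)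
    rintro β ⟨hβT, i₀, hi₀⟩
    refine ⟨hβT, Order.succ (ToType.mk.symm i₀).1, hlim.succ_lt (ToType.mk.symm i₀).2, ?_⟩
    intro i hi hεi hi'
    have h1 : (ToType.mk.symm i₀).1 < i := Order.succ_le_iff.1 hεi
    refine (hD β).2.cl i hi' ((zero_le).trans_lt h1) ?_
    intro x hx
    have hx' : max x (ToType.mk.symm i₀).1 < i := max_lt hx h1
    have hx'' : max x (ToType.mk.symm i₀).1 < (Order.succ κ).ord := hx'.trans hi'
    have h2 := hi₀ (ToType.mk ⟨_, hx''⟩) (by
      rw [← OrderIso.symm_apply_le]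
      exact (le_max_right x (ToType.mk.symm i₀).1 :
        (ToType.mk.symm i₀).1 ≤ max x (ToType.mk.symm i₀).1))
    have h3 : nx β ⟨_, hx''⟩ ≤ ToType.mk.symm (g (ToType.mk ⟨_, hx''⟩)) := by
      rw [ToType.mk.le_symm_apply]
      simpa [f] using h2
    have h4 : (nx β ⟨_, hx''⟩).1 ≤ g' (max x (ToType.mk.symm i₀).1) := by
      simp only [g', dif_pos hx'']
      exact h3
    refine ⟨(nx β ⟨_, hx''⟩).1, hnx1 _ _, ?_, h4.trans_lt (hi _ hx')⟩
    exact (le_max_left x (ToType.mk.symm i₀).1).trans_lt (hnx2 β ⟨_, hx''⟩)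
  constructor
  · have h0 : bNum κ ≤ #(f '' Iio lam.ord : Set ((Order.succ κ).ord.ToType →
        (Order.succ κ).ord.ToType)) := by
      refine csInf_le' ⟨_, rfl, ?_⟩
      rintro ⟨g, hg⟩
      refine key g fun C hC => ?_
      obtain ⟨x, h1, h2, h3⟩ := hT C hC
      exact ⟨x, ⟨h1, hg _ ⟨x, h3, rfl⟩⟩, h2, h3⟩
    · refine h0.trans ?_
      have h1 := Cardinal.mk_image_le_lift (f := f) (s := Iio lam.ord)
      rw [Cardinal.mk_Iio_ordinal, Cardinal.card_ord, Cardinal.lift_lift] at h1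
      exact Cardinal.lift_le.1 h1
  · refine le_csInf ⟨_, Set.univ, rfl, fun f => ⟨f, trivial, ?_⟩⟩ ?_
    · exact ⟨ToType.mk ⟨0, hlim.bot_lt⟩, fun i _ => le_rfl⟩
    · rintro _ ⟨F, rfl, hF⟩
      by_contra hcon
      push Not at hcon
      obtain ⟨g, hg⟩ := stat_fiber hlamcof hT (I := F) (by rw [hlam.cof_ord]; exact hcon)
        (fun g β => EvLe (f β) g.1) (fun β _ => by
          obtain ⟨g, hg, h⟩ := hF (f β)
          exact ⟨⟨g, hg⟩, h⟩)
      exact key _ hg

end Helper85.Refl
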