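import Pool.Agent.Helper85.Refl.Calib

set_option autoImplicit false

open Cardinal Ordinal Set Filter Helper23.Pcf

universe u v

namespace Helper85.Refl

theorem enum_congr {S S' : Set Ordinal.{u}} (hS : ¬ BddAbove S) (hS' : ¬ BddAbove S')
    {γ : Ordinal.{u}} (h : S ∩ Iio γ = S' ∩ Iio γ) :
    ∀ j, enumOrd S j < γ → enumOrd S' j = enumOrd S j := by
  intro j
  induction j using WellFoundedLT.induction with
  | ind j ih =>
    intro hj
    have h1 : ∀ k < j, enumOrd S' k = enumOrd S k := fun k hk =>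
      ih k hk ((enumOrd_strictMono hS hk).trans hj)
    have h2 : enumOrd S' j ≤ enumOrd S j := by
      refine enumOrd_le_of_forall_lt ?_ fun k hk => ?_
      · have h3 : enumOrd S j ∈ S ∩ Iio γ := ⟨enumOrd_mem hS j, hj⟩
        rw [h] at h3
        exact h3.1
      · rw [h1 k hk]
        exact enumOrd_strictMono hS hk
    refine le_antisymm h2 ?_
    refine enumOrd_le_of_forall_lt ?_ fun k hk => ?_
    · have h3 : enumOrd S' j ∈ S' ∩ Iio γ := ⟨enumOrd_mem hS' j, h2.trans_lt hj⟩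
      rw [← h] at h3
      exact h3.1
    · rw [← h1 k hk]
      exact enumOrd_strictMono hS' hk

theorem exists_onto {γ : Ordinal.{u}} {σ : Cardinal.{u}} (h : γ.card ≤ σ) :
    ∃ f : Ordinal.{u} → Ordinal.{u}, ∀ x < γ, ∃ ν < σ.ord, f ν = x := by
  classical
  have h1 : #(Iio γ) ≤ #(Iio σ.ord) := by
    rw [Cardinal.mk_Iio_ordinal, Cardinal.mk_Iio_ordinal, Cardinal.card_ord]
    exact Cardinal.lift_le.2 h
  obtain ⟨g⟩ := h1
  refine ⟨fun ν => if h : ∃ Z : Iio γ, (g Z).1 = ν then h.choose.1 else 0, fun Z hZ => ?_⟩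
  refine ⟨(g ⟨Z, hZ⟩).1, (g ⟨Z, hZ⟩).2, ?_⟩
  have h2 : ∃ Z' : Iio γ, (g Z').1 = (g ⟨Z, hZ⟩).1 := ⟨⟨Z, hZ⟩, rfl⟩
  beta_reduce
  rw [dif_pos h2]
  have h3 := g.injective (Subtype.ext h2.choose_spec)
  exact congrArg Subtype.val h3

/-- A coherent point. -/
theorem exists_coherent {σ : Cardinal.{u}} (hσ : σ.IsRegular) (hσ0 : ℵ₀ < σ)
    (e : Ordinal.{u} → Ordinal.{u} → Ordinal.{u})
    (he : ∀ γ < (Order.succ σ).ord, ∀ x < γ, ∃ ν < σ.ord, e γ ν = x)
    {β : Ordinal.{u}} (hβ : β < (Order.succ σ).ord) (hβlim : Order.IsSuccLimit β)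
    (hβcof : β.cof < σ) :
    ∃ ν < σ.ord, (∀ x < β, ∃ y, x < y ∧ y < β ∧ ∃ ξ < ν, e β ξ = y) ∧
      ∀ γ < β, (∃ ξ < ν, e β ξ = γ) → ∀ x < γ, (∃ ξ < ν, e γ ξ = x) ↔ ∃ ξ < ν, e β ξ = x := by
  classical
  have hσlim : Order.IsSuccLimit σ.ord := Cardinal.isSuccLimit_ord hσ.1
  have hσcof : ℵ₀ < σ.ord.cof := by rw [hσ.cof_ord]; exact hσ0
  -- cofinal part
  obtain ⟨Φ, ξ, hξ, hξβ⟩ := exists_cont_cofinal hβlim
  have hcof0 : ℵ₀ ≤ β.cof := Ordinal.aleph0_le_cof_iff.2 (Ordinal.one_lt_cof_iff.2 hβlim)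
  have hlimc : Order.IsSuccLimit β.cof.ord := Cardinal.isSuccLimit_ord hcof0
  have h1 : ∀ i : Iio β.cof.ord, ∃ ν < σ.ord, e β ν = ξ i.1 := fun i =>
    he β hβ _ (by conv_rhs => rw [← hξβ]
                  exact cont_lt hξ i.2)
  choose x hx hx' using h1
  have hν0 : Order.succ (⨆ i, x i) < σ.ord := by
    refine hσlim.succ_lt (iSup_Iio_lt ?_ hx)
    rw [Cardinal.card_ord, hσ.cof_ord]
    exact hβcof
  -- closure part
  have hp : ∀ a b : Ordinal.{u}, ∃ p < σ.ord, e β a < β → e (e β a) b < e β a →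
      e β p = e (e β a) b := by
    intro a b
    by_cases h2 : e β a < β
    · by_cases h3 : e (e β a) b < e β a
      · obtain ⟨p, h4, h5⟩ := he β hβ _ (h3.trans h2)
        exact ⟨p, h4, fun _ _ => h5⟩
      · exact ⟨0, hσlim.bot_lt, fun _ h => absurd h h3⟩
    · exact ⟨0, hσlim.bot_lt, fun h => absurd h h2⟩
  have hq : ∀ a b : Ordinal.{u}, ∃ p < σ.ord, e β a < β → e β b < e β a →
      e (e β a) p = e β b := by
    intro a b
    by_cases h2 : e β a < β
    · by_cases h3 : e β b < e β a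
      · obtain ⟨p, h4, h5⟩ := he (e β a) (h2.trans hβ) _ h3
        exact ⟨p, h4, fun _ _ => h5⟩
      · exact ⟨0, hσlim.bot_lt, fun _ h => absurd h h3⟩
    · exact ⟨0, hσlim.bot_lt, fun h => absurd h h2⟩
  choose p hp1 hp2 using hp
  choose q hq1 hq2 using hq
  let g : Ordinal.{u} → Ordinal.{u} := fun z => Order.succ (max z
    (⨆ a : Iio (Order.succ z), ⨆ b : Iio (Order.succ z), max (p a.1 b.1) (q a.1 b.1)))
  have hcard : ∀ z < σ.ord, (Order.succ z).card < σ.ord.cof := by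
    intro z hz
    rw [hσ.cof_ord]
    exact Cardinal.lt_ord.1 (hσlim.succ_lt hz)
  obtain ⟨z, hz, hνz, hz'⟩ := exists_iter hσcof g (fun z hz => ⟨by
      exact (le_max_left _ _).trans_lt (Order.lt_succ _), by
      refine hσlim.succ_lt (max_lt hz (iSup_Iio_lt (hcard z hz) fun a =>
        iSup_Iio_lt (hcard z hz) fun b => max_lt (hp1 _ _) (hq1 _ _)))⟩) _ hν0
  have hcl : ∀ a < z, ∀ b < z, p a b < z ∧ q a b < z := by
    intro a ha b hb
    obtain ⟨y, hy, h2, h3⟩ := hz' (max a b) (max_lt ha hb)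
    have h4 : a < Order.succ y := ((le_max_left a b).trans_lt h2).trans (Order.lt_succ y)
    have h5 : b < Order.succ y := ((le_max_right a b).trans_lt h2).trans (Order.lt_succ y)
    have h6 : max (p a b) (q a b) < g y := by
      refine (Order.lt_succ_iff.2 (le_trans ?_ (le_max_right _ _)))
      refine le_trans ?_ (Ordinal.le_iSup (fun a : Iio (Order.succ y) =>
        ⨆ b : Iio (Order.succ y), max (p a.1 b.1) (q a.1 b.1)) ⟨a, h4⟩)
      exact Ordinal.le_iSup (fun b : Iio (Order.succ y) => max (p a b.1) (q a b.1)) ⟨b, h5⟩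
    exact ⟨((le_max_left _ _).trans_lt h6).trans h3, ((le_max_right _ _).trans_lt h6).trans h3⟩
  refine ⟨z, hz, ?_, ?_⟩
  · intro y hy
    obtain ⟨i, hi, hyi⟩ := cont_limit hξ hlimc.isSuccPrelimit
      (show y < ξ β.cof.ord by rw [hξβ]; exact hy)
    refine ⟨ξ i, hyi, by conv_rhs => rw [← hξβ]
                         exact cont_lt hξ hi, x ⟨i, hi⟩, ?_, hx' ⟨i, hi⟩⟩
    exact ((Ordinal.le_iSup x ⟨i, hi⟩).trans_lt (Order.lt_succ _)).trans hνz
  · rintro γ hγ ⟨a, ha, rfl⟩ y hy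
    constructor
    · rintro ⟨b, hb, rfl⟩
      exact ⟨p a b, (hcl a ha b hb).1, hp2 a b hγ hy⟩
    · rintro ⟨b, hb, rfl⟩
      exact ⟨q a b, (hcl a ha b hb).2, hq2 a b hγ hy⟩

/-- Shelah: the points of cofinality `τ` in `σ⁺` are approachable, if `τ < σ` are regular. -/
theorem approachable_succ {σ τ : Cardinal.{u}} (hσ : σ.IsRegular) (hτ : τ.IsRegular)
    (hτσ : τ < σ) : Approachable {β : Ordinal.{u} | β.cof = τ} τ (Order.succ σ) := by
  classical
  have hσ0 : ℵ₀ < σ := hτ.1.trans_lt hτσ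
  have hτlim : Order.IsSuccLimit τ.ord := Cardinal.isSuccLimit_ord hτ.1
  have hslim : Order.IsSuccLimit (Order.succ σ).ord :=
    Cardinal.isSuccLimit_ord (hσ.1.trans (Order.le_succ σ))
  have he : ∀ γ : Ordinal.{u}, ∃ f : Ordinal.{u} → Ordinal.{u}, γ < (Order.succ σ).ord →
      ∀ x < γ, ∃ ν < σ.ord, f ν = x := by
    intro γ
    by_cases hγ : γ < (Order.succ σ).ord
    · obtain ⟨f, hf⟩ := exists_onto (Order.lt_succ_iff.1 (Cardinal.lt_ord.1 hγ))
      exact ⟨f, fun _ => hf⟩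
    · exact ⟨id, fun h => absurd h hγ⟩
  choose e he using he
  have ht : ∀ ρ : Ordinal.{u}, ∃ t : Ordinal.{u} → Ordinal.{u}, ρ.cof = τ →
      (∀ i j, j < i → t j < t i) ∧ t τ.ord = ρ ∧ ∀ x < ρ, ∃ i < τ.ord, x < t i := by
    intro ρ
    by_cases hρ : ρ.cof = τ
    · have hρlim : Order.IsSuccLimit ρ := Ordinal.one_lt_cof_iff.1 (by
        rw [hρ]; exact one_lt_aleph0.trans_le hτ.1)
      obtain ⟨Φ, ξ, hξ, hξρ⟩ := exists_cont_cofinal hρlim
      rw [hρ] at hξρ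
      refine ⟨ξ, fun _ => ⟨fun i j h => cont_lt hξ h, hξρ, fun x hx => ?_⟩⟩
      exact cont_limit hξ hτlim.isSuccPrelimit (by rw [hξρ]; exact hx)
    · exact ⟨id, fun h => absurd h hρ⟩
  choose t ht using ht
  let S : Ordinal.{u} → Ordinal.{u} → Set Ordinal.{u} := fun γ ν =>
    {x | x < γ ∧ ∃ ξ < ν, e γ ξ = x} ∪ Ici γ
  have hS : ∀ γ ν, ¬ BddAbove (S γ ν) := by
    rintro γ ν ⟨b, hb⟩
    have h1 : Order.succ (max b γ) ∈ S γ ν :=
      Or.inr ((le_max_right b γ).trans (Order.le_succ _))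
    exact absurd (hb h1) (not_le.2 (Order.lt_succ_iff.2 (le_max_left b γ)))
  refine ⟨fun γ => (fun z : Ordinal.{u} × Ordinal.{u} => fun j => enumOrd (S γ z.1) (t z.2 j)) ''
    (Iio σ.ord ×ˢ Iio σ.ord), Set.univ, ?_, ?_, ?_⟩
  · intro γ _
    refine Cardinal.mk_image_le.trans_lt ?_
    rw [Cardinal.mk_setProd, Cardinal.mk_Iio_ordinal, Cardinal.card_ord,
      Cardinal.mul_eq_self (Cardinal.aleph0_le_lift.2 hσ.1)]
    exact Cardinal.lift_lt.2 (Order.lt_succ σ)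
  · exact ⟨fun y hy => ⟨Order.succ y, trivial, Order.lt_succ y, hslim.succ_lt hy⟩,
      fun _ _ _ _ => trivial⟩
  · intro β hβT _ hβ
    have hβcof : β.cof = τ := hβT
    have hβlim : Order.IsSuccLimit β := Ordinal.one_lt_cof_iff.1 (by
      rw [hβcof]; exact one_lt_aleph0.trans_le hτ.1)
    obtain ⟨ν, hν, hunb, hcoh⟩ := exists_coherent hσ hσ0 e he hβ hβlim (by rw [hβcof]; exact hτσ)
    obtain ⟨ρ, hρ⟩ := enumOrd_surjective (hS β ν) (show β ∈ S β ν from Or.inr (mem_Ici.2 le_rfl))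
    have hmono : StrictMono (enumOrd (S β ν)) := enumOrd_strictMono (hS β ν)
    have hltρ : ∀ k, enumOrd (S β ν) k < β → k < ρ := by
      intro k hk
      exact hmono.lt_iff_lt.1 (hk.trans_eq hρ.symm)
    have hlt : ∀ k < ρ, enumOrd (S β ν) k < β := by
      intro k hk
      exact (hmono hk).trans_eq hρ
    have hbig : ∀ x < β, ∃ k < ρ, x < enumOrd (S β ν) k := by
      intro x hx
      obtain ⟨y, hxy, hy, hy'⟩ := hunb x hx
      obtain ⟨k, hk⟩ := enumOrd_surjective (hS β ν) (show y ∈ S β ν from Or.inl ⟨hy, hy'⟩)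
      exact ⟨k, hltρ k (by rw [hk]; exact hy), by rw [hk]; exact hxy⟩
    have hρlim : Order.IsSuccLimit ρ := by
      refine UnbIn.isSuccLimit (C := Set.univ) (fun j hj => ?_) ?_
      · obtain ⟨k, hk, hk'⟩ := hbig _ (hlt j hj)
        exact ⟨k, trivial, hmono.lt_iff_lt.1 hk', hk⟩
      · obtain ⟨k, hk, _⟩ := hbig 0 hβlim.bot_lt
        exact (zero_le).trans_lt hk
    have hρcof : ρ.cof = τ := by
      have h1 : ⨆ i : Iio ρ, enumOrd (S β ν) i.1 = β := by
        apply le_antisymm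
        · exact Ordinal.iSup_le fun i => (hlt i.1 i.2).le
        · apply le_of_forall_lt
          intro x hx
          obtain ⟨k, hk, hxk⟩ := hbig x hx
          exact lt_of_lt_of_le hxk (Ordinal.le_iSup (fun i : Iio ρ => enumOrd (S β ν) i.1) ⟨k, hk⟩)
      rw [← hβcof, ← h1]
      exact (Ordinal.cof_iSup_Iio (fun i j h => hmono h) hρlim.isSuccPrelimit).symm
    have hρσ : ρ < σ.ord := by
      rw [Cardinal.lt_ord]
      have hx : ∀ i : Iio ρ, ∃ ξ < ν, e β ξ = enumOrd (S β ν) i.1 := by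
        intro i
        rcases enumOrd_mem (hS β ν) i.1 with h1 | h1
        · exact h1.2
        · exact absurd h1 (not_le.2 (hlt i.1 i.2))
      choose x hx1 hx2 using hx
      have h1 : #(Iio ρ) ≤ #(Iio ν) := by
        refine Cardinal.mk_le_of_injective (f := fun i : Iio ρ => (⟨x i, hx1 i⟩ : Iio ν)) ?_
        intro i j h
        have h2 : x i = x j := Subtype.mk.inj h
        have h3 : enumOrd (S β ν) i.1 = enumOrd (S β ν) j.1 := by rw [← hx2, ← hx2, h2]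
        exact Subtype.ext (hmono.injective h3)
      rw [Cardinal.mk_Iio_ordinal, Cardinal.mk_Iio_ordinal, Cardinal.lift_le] at h1
      exact h1.trans_lt (Cardinal.lt_ord.1 hν)
    obtain ⟨ht1, ht2, ht3⟩ := ht ρ hρcof
    have htρ : ∀ i < τ.ord, t ρ i < ρ := fun i hi => by
      conv_rhs => rw [← ht2]
      exact ht1 _ _ hi
    refine ⟨fun i => enumOrd (S β ν) (t ρ i), fun i _ j hj => hmono (ht1 _ _ hj),
      fun i hi => hlt _ (htρ i hi), ?_, ?_⟩
    · intro x hx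
      obtain ⟨k, hk, hxk⟩ := hbig x hx
      obtain ⟨i, hi, hki⟩ := ht3 k hk
      exact ⟨i, hi, hxk.trans (hmono hki)⟩
    · intro i hi
      have hγ := hlt _ (htρ i hi)
      refine ⟨_, hγ, _, ⟨(ν, ρ), ⟨hν, hρσ⟩, rfl⟩, fun j hj => ?_⟩
      have h1 : ∃ ξ < ν, e β ξ = enumOrd (S β ν) (t ρ i) := by
        rcases enumOrd_mem (hS β ν) (t ρ i) with h1 | h1
        · exact h1.2
        · exact absurd h1 (not_le.2 hγ)
      have h2 := hcoh _ hγ h1
      symm
      refine enum_congr (hS _ _) (hS _ _) (γ := enumOrd (S β ν) (t ρ i)) ?_ _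
        (hmono (ht1 _ _ hj))
      ext y
      simp only [S, mem_inter_iff, mem_union, mem_ofPred_eq, mem_Ici, mem_Iio]
      constructor
      · rintro ⟨h3, h4⟩
        rcases h3 with h3 | h3
        · exact ⟨Or.inl ⟨h4, (h2 y h4).2 h3.2⟩, h4⟩
        · exact absurd (h3.trans_lt h4) (not_lt.2 hγ.le)
      · rintro ⟨h3, h4⟩
        rcases h3 with h3 | h3
        · exact ⟨Or.inl ⟨h4.trans hγ, (h2 y h4).1 h3.2⟩, h4⟩
        · exact absurd h3 (not_le.2 h4)

end Helper85.Refl
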