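import Pool.Agent.Helper85.Refl.Cor

set_option autoImplicit false

open Cardinal Ordinal Set Filter Helper23.Pcf

universe u v

namespace Helper85.Refl

/-- Stationary sets are not small unions of nonstationary ones. -/
theorem stat_fiber {o : Ordinal.{u}} (ho : ℵ₀ < o.cof) {S : Set Ordinal.{u}} (hS : StatIn S o)
    {I : Type u} (hI : #I < o.cof) (R : I → Ordinal.{u} → Prop) (hR : ∀ x ∈ S, ∃ i, R i x) :
    ∃ i, StatIn {x | x ∈ S ∧ R i x} o := by
  classical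
  by_contra hcon
  push Not at hcon
  have h1 : ∀ i, ∃ C, ClubIn C o ∧ ∀ x ∈ S, x ∈ C → x < o → ¬ R i x := by
    intro i
    have h2 := hcon i
    simp only [StatIn, not_forall] at h2
    obtain ⟨C, hC, hC'⟩ := h2
    exact ⟨C, hC, fun x hx hxC hxo hR => hC' ⟨x, ⟨hx, hR⟩, hxC, hxo⟩⟩
  choose C hC hC' using h1
  obtain ⟨x, hx, hxC, hxo⟩ := hS _ (club_iInter ho hI C hC)
  obtain ⟨i, hi⟩ := hR x hx
  exact hC' i x hx (mem_iInter.1 hxC i) hxo hi

/-- the continuous sequence made of a sequence -/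
noncomputable def smooth (c : Ordinal.{u} → Ordinal.{u}) : Ordinal.{u} → Ordinal.{u} :=
  (exists_cont (fun j _ => c j)).choose

theorem smooth_spec (c : Ordinal.{u} → Ordinal.{u}) : IsCont (fun j _ => c j) (smooth c) :=
  (exists_cont (fun j _ => c j)).choose_spec

theorem smooth_congr {c h : Ordinal.{u} → Ordinal.{u}} {i : Ordinal.{u}}
    (hch : ∀ j < i, c j = h j) : ∀ j ≤ i, smooth c j = smooth h j := by
  intro j
  induction j using WellFoundedLT.induction with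
  | ind j ih =>
    intro hj
    rw [smooth_spec c j, smooth_spec h j]
    refine iSup_congr fun k => ?_
    have h1 : k.1 < i := lt_of_lt_of_le k.2 hj
    simp only
    rw [ih k.1 k.2 h1.le, hch k.1 h1]

theorem smooth_le {c : Ordinal.{u} → Ordinal.{u}} {o : Ordinal.{u}}
    (hc : ∀ i < o, ∀ j < i, c j < c i) : ∀ i < o, smooth c i ≤ c i := by
  intro i
  induction i using WellFoundedLT.induction with
  | ind i ih =>
    intro hi
    rw [smooth_spec c i]
    refine Ordinal.iSup_le fun j => max_le ?_ ?_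
    · exact Order.succ_le_of_lt ((ih j.1 j.2 (lt_trans j.2 hi)).trans_lt (hc i hi j.1 j.2))
    · exact (hc i hi j.1 j.2).le

theorem lt_smooth {c : Ordinal.{u} → Ordinal.{u}} {j i : Ordinal.{u}} (h : j < i) :
    c j ≤ smooth c i := cont_step (smooth_spec c) h

theorem smooth_top {c : Ordinal.{u} → Ordinal.{u}} {o β : Ordinal.{u}}
    (ho : Order.IsSuccLimit o) (hc : ∀ i < o, ∀ j < i, c j < c i) (hcβ : ∀ i < o, c i < β)
    (hcu : ∀ x < β, ∃ i < o, x < c i) : smooth c o = β := by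
  apply le_antisymm
  · apply le_of_forall_lt
    intro x hx
    obtain ⟨j, hj, hxj⟩ := cont_limit (smooth_spec c) ho.isSuccPrelimit hx
    exact hxj.trans ((smooth_le hc j hj).trans_lt (hcβ j hj))
  · apply le_of_forall_lt
    intro x hx
    obtain ⟨i, hi, hxi⟩ := hcu x hx
    exact hxi.trans_le (lt_smooth hi)

/-- The set `T` is approachable: there are fewer than `λ` functions at each level `γ < λ` and, for
almost all `β ∈ T`, there is an increasing cofinal sequence of length `τ` in `β` all of whose proper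
initial segments are restrictions of functions at levels below `β`. -/
def Approachable (T : Set Ordinal.{u}) (τ lam : Cardinal.{u}) : Prop :=
  ∃ (H : Ordinal.{u} → Set (Ordinal.{u} → Ordinal.{u})) (E : Set Ordinal.{u}),
    (∀ γ < lam.ord, #(H γ) < Cardinal.lift.{u + 1} lam) ∧ ClubIn E lam.ord ∧
    ∀ β ∈ T, β ∈ E → β < lam.ord → ∃ c : Ordinal.{u} → Ordinal.{u},
      (∀ i < τ.ord, ∀ j < i, c j < c i) ∧ (∀ i < τ.ord, c i < β) ∧
      (∀ x < β, ∃ i < τ.ord, x < c i) ∧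
      ∀ i < τ.ord, ∃ γ < β, ∃ h ∈ H γ, ∀ j < i, c j = h j

theorem iSup_lt_of_mk_lt {ι : Type (u + 1)} {f : ι → Ordinal.{u}} {lam : Cardinal.{u}}
    (hlam : lam.IsRegular) (hι : #ι < Cardinal.lift.{u + 1} lam) (hf : ∀ i, f i < lam.ord) :
    BddAbove (range f) ∧ ⨆ i, f i < lam.ord := by
  have hb : BddAbove (range f) := ⟨lam.ord, by rintro _ ⟨i, rfl⟩; exact (hf i).le⟩
  refine ⟨hb, ?_⟩
  refine Ordinal.sSup_lt_of_lt_cof ?_ ?_
  · rw [← Ordinal.lift_cof, hlam.cof_ord]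
    exact Cardinal.mk_range_le.trans_lt hι
  · rintro _ ⟨i, rfl⟩
    exact hf i

/-- The clubs. -/
theorem exists_clubs {α : Ordinal.{u}} {κ lam : Cardinal.{u}} (hα : Order.IsSuccLimit α)
    (hκ : #(aSet α) = Cardinal.lift.{u+1} κ) (hlam : lam.IsRegular) (hκlam : Order.succ κ < lam)
    (hp : Cardinal.lift.{u+1} lam ≤ #(pcf (aSet α))) {T : Set Ordinal.{u}}
    (hT : Approachable T (Order.succ κ) lam) :
    ∃ D : Ordinal.{u} → Set Ordinal.{u},
      (∀ β, D β ⊆ Iio (Order.succ κ).ord ∧ ClubIn (D β) (Order.succ κ).ord) ∧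
      ∀ P : Set (Set Ordinal.{u}), #P < Cardinal.lift.{u+1} lam → ∃ E, ClubIn E lam.ord ∧
        ∀ β ∈ T, β ∈ E → β < lam.ord → ∀ C ⊆ D β, UnbIn C (Order.succ κ).ord →
          ∃ i < (Order.succ κ).ord, C ∩ Iio i ∉ P := by
  classical
  have hne : (aSet α).Nonempty := by
    by_contra hcon
    rw [Set.not_nonempty_iff_eq_empty] at hcon
    rw [pcf_aSet, hcon, pcfS_empty] at hp
    simp only [Cardinal.mk_eq_zero, nonpos_iff_eq_zero, Cardinal.lift_eq_zero] at hp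
    exact hlam.ne_zero hp
  obtain ⟨γ, hγα, hA, hAc, h0, hκγ⟩ := setup hα hne
  have hκeq : (α - γ).card = κ := by
    rw [hAc] at hκ
    exact Cardinal.lift_injective hκ
  rw [hκeq] at h0 hκγ
  rw [pcf_aSet, hA] at hp
  obtain ⟨θ, Y, G, _, hY, hYc, hG1, hG2, hG3, hG4, hidx, hclub⟩ :=
    exists_structure h0 hκeq hκγ hα hγα hlam ((Order.lt_succ κ).trans hκlam) hp
  have hYreg : ∀ m ∈ Y, m.IsRegular := fun m hm => (hY hm).1
  have hκreg : (Order.succ κ).IsRegular := Cardinal.isRegular_succ h0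
  have hκlim : Order.IsSuccLimit (Order.succ κ).ord := Cardinal.isSuccLimit_ord hκreg.1
  have hκcof : ℵ₀ < (Order.succ κ).ord.cof := by
    rw [hκreg.cof_ord]; exact h0.trans_lt (Order.lt_succ κ)
  have hlam0 : ℵ₀ < lam := h0.trans_lt ((Order.lt_succ κ).trans hκlam)
  have hlamcof : ℵ₀ < lam.ord.cof := by rw [hlam.cof_ord]; exact hlam0
  have hlamlim : Order.IsSuccLimit lam.ord := Cardinal.isSuccLimit_ord hlam.1
  obtain ⟨H, E, hH, hE, hTE⟩ := hT
  -- the sequences and the clubs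
  have hD : ∀ β : Ordinal.{u}, ∃ (D : Set Ordinal.{u}) (c : Ordinal.{u} → Ordinal.{u}),
      D ⊆ Iio (Order.succ κ).ord ∧ ClubIn D (Order.succ κ).ord ∧
      (β ∈ T → β ∈ E → β < lam.ord →
        (∀ i < (Order.succ κ).ord, ∀ j < i, c j < c i) ∧
        smooth c (Order.succ κ).ord = β ∧
        (∀ i < (Order.succ κ).ord, ∃ γ < β, ∃ h ∈ H γ, ∀ j < i, c j = h j) ∧
        ∀ i ∈ D, idx θ (smooth c i) ∈ G (idx θ β)) := by
    intro β
    have huniv : ClubIn (Iio (Order.succ κ).ord) (Order.succ κ).ord :=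
      ⟨fun y hy => ⟨Order.succ y, hκlim.succ_lt hy, Order.lt_succ y, hκlim.succ_lt hy⟩,
        fun δ hδ _ _ => hδ⟩
    by_cases hβ : β ∈ T ∧ β ∈ E ∧ β < lam.ord
    · obtain ⟨c, hc1, hc2, hc3, hc4⟩ := hTE β hβ.1 hβ.2.1 hβ.2.2
      have htop := smooth_top hκlim hc1 hc2 hc3
      have hcof : ℵ₀ < β.cof := by
        rw [← htop, cont_cof (smooth_spec c) hκlim]; exact hκcof
      obtain ⟨C, hC, hC'⟩ := hclub β hβ.2.2 hcof
      have h1 : ClubIn {i | smooth c i ∈ C} (Order.succ κ).ord :=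
        club_preimage (smooth_spec c) hκcof (by rw [htop]; exact hC)
      refine ⟨{i | smooth c i ∈ C} ∩ Iio (Order.succ κ).ord, c, inter_subset_right,
        club_inter hκcof h1 huniv, fun _ _ _ => ⟨hc1, htop, hc4, ?_⟩⟩
      rintro i ⟨hi, hi'⟩
      refine hC' _ hi ?_
      rw [← htop]
      exact cont_lt (smooth_spec c) hi'
    · exact ⟨_, id, subset_rfl, huniv, fun h1 h2 h3 => absurd ⟨h1, h2, h3⟩ hβ⟩
  choose D c hD1 hD2 hD3 using hD
  refine ⟨D, fun β => ⟨hD1 β, hD2 β⟩, fun P hP => ?_⟩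
  -- the sets `Z` and their bounds
  let Z : (Ordinal.{u} → Ordinal.{u}) → Set Ordinal.{u} → Set Cardinal.{u} :=
    fun h B => (fun j => idx θ (smooth h j)) '' B
  let s : (Ordinal.{u} → Ordinal.{u}) → Set Ordinal.{u} → Ordinal.{u} :=
    fun h B => sInf {ε' | pcfS (Z h B) ⊆ Iic (idx θ ε')}
  have hZcongr : ∀ (f h : Ordinal.{u} → Ordinal.{u}) (i : Ordinal.{u}) (B : Set Ordinal.{u}),
      (∀ j < i, f j = h j) → B ⊆ Iio i → Z f B = Z h B := by
    intro f h i B hfh hB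
    refine Set.image_congr ?_
    intro j hj
    show idx θ (smooth f j) = idx θ (smooth h j)
    rw [smooth_congr hfh j (hB hj).le]
  have hbd : ∀ γ < lam.ord, ∃ b < lam.ord, ∀ h ∈ H γ, ∀ B ∈ P,
      s h B < lam.ord → s h B < b := by
    intro γ hγ
    have h1 := iSup_lt_of_mk_lt (ι := H γ × P)
      (f := fun x => if s x.1.1 x.2.1 < lam.ord then s x.1.1 x.2.1 else 0) hlam (by
        rw [Cardinal.mk_prod, Cardinal.lift_id, Cardinal.lift_id]
        exact Cardinal.mul_lt_of_lt (Cardinal.aleph0_le_lift.2 hlam.1) (hH γ hγ) hP) (by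
        intro x
        split_ifs with h
        · exact h
        · exact hlamlim.bot_lt)
    refine ⟨_, hlamlim.succ_lt h1.2, fun h hh B hB hs => ?_⟩
    rw [Order.lt_succ_iff]
    have h2 := le_ciSup h1.1 ((⟨h, hh⟩, ⟨B, hB⟩) : H γ × P)
    simp only [if_pos hs] at h2
    exact h2
  have hbd' : ∀ γ : Ordinal.{u}, ∃ b < lam.ord, γ < lam.ord → ∀ h ∈ H γ,
      ∀ B ∈ P, s h B < lam.ord → s h B < b := by
    intro γ
    by_cases hγ : γ < lam.ord
    · obtain ⟨b, h1, h2⟩ := hbd γ hγ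
      exact ⟨b, h1, fun _ => h2⟩
    · exact ⟨0, hlamlim.bot_lt, fun h => absurd h hγ⟩
  choose b hb1 hb2 using hbd'
  have hK : ClubIn {β | ∀ γ < β, β ∈ Ioi (b γ)} lam.ord := by
    refine club_diag hlamcof (fun x hx => ?_) (fun γ => Ioi (b γ)) fun γ hγ =>
      club_Ioi hlamlim (hb1 γ)
    rw [hlam.cof_ord]
    exact Cardinal.lt_ord.1 hx
  refine ⟨_, club_inter hlamcof hK hE, ?_⟩
  rintro β hβT ⟨hβK, hβE⟩ hβ C hCD hC
  by_contra hcon
  push Not at hcon
  obtain ⟨hc1, htop, hc4, hc5⟩ := hD3 β hβT hβE hβ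
  have hξβ : ∀ i < (Order.succ κ).ord, smooth (c β) i < β := fun i hi => by
    conv_rhs => rw [← htop]
    exact cont_lt (smooth_spec _) hi
  have hξinj : ∀ x y, smooth (c β) x = smooth (c β) y → x = y := by
    intro x y h
    rcases lt_trichotomy x y with h' | h' | h'
    · exact absurd h (cont_lt (smooth_spec _) h').ne
    · exact h'
    · exact absurd h (cont_lt (smooth_spec _) h').ne'
  -- the sets `Z` of `β` are small below `β`
  have hZβ : ∀ i < (Order.succ κ).ord, ∃ z < β, pcfS (Z (c β) (C ∩ Iio i)) ⊆ Iic (idx θ z) := by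
    intro i hi
    obtain ⟨γ, hγ, h, hh, hch⟩ := hc4 i hi
    have h1 : Z (c β) (C ∩ Iio i) ⊆ G (idx θ β) := by
      rintro _ ⟨j, ⟨hj1, hj2⟩, rfl⟩
      exact hc5 j (hCD hj1)
    have h2 := hG1 _ (hidx β hβ)
    have h3 : pcfS (Z (c β) (C ∩ Iio i)) ⊆ Iic (idx θ β) := fun z hz =>
      h2.2.2.1 z (h2.2.1 (pcfS_mono h1 hz))
    rw [hZcongr _ _ i _ hch inter_subset_right] at h3 ⊢
    have h4 : s h (C ∩ Iio i) ≤ β := csInf_le' h3
    have h5 : pcfS (Z h (C ∩ Iio i)) ⊆ Iic (idx θ (s h (C ∩ Iio i))) :=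
      csInf_mem (s := {ε' | pcfS (Z h (C ∩ Iio i)) ⊆ Iic (idx θ ε')}) ⟨β, h3⟩
    have h6 : s h (C ∩ Iio i) < b γ :=
      hb2 γ (hγ.trans hβ) h hh _ (hcon i hi) (h4.trans_lt hβ)
    exact ⟨_, h6.trans (hβK γ hγ), h5⟩
  -- an ultrafilter on the tails of `C`
  let W : Set Ordinal.{u} := {j | j ∈ C ∧ j < (Order.succ κ).ord}
  have hWsmall : Small.{u} W := small_subset (show W ⊆ Set.Iio (Order.succ κ).ord from
    fun j h => h.2)
  let J := Shrink.{u} W
  let w : J → Ordinal.{u} := fun j => ((equivShrink W).symm j).1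
  have hwinj : Function.Injective w := fun i j h =>
    (equivShrink W).symm.injective (Subtype.ext h)
  have hwmem : ∀ j, w j ∈ W := fun j => ((equivShrink W).symm j).2
  obtain ⟨D', hD'⟩ := exists_tail_uf w hκlim.bot_lt (by
    intro x hx
    obtain ⟨y, h1, h2, h3⟩ := hC x hx
    exact ⟨equivShrink W ⟨y, h1, h3⟩, by simpa [w] using h2⟩)
  obtain ⟨l, hl⟩ := exists_hasCof D' (fun k => (idx θ (smooth (c β) (w k))).ord)
    (Filter.Eventually.of_forall fun k => Cardinal.isSuccLimit_ord (idx_reg _ _).1)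
  let X : Set Cardinal.{u} := (fun j => idx θ (smooth (c β) j)) '' W
  have hXY : X ⊆ pcfS Y := by
    rintro _ ⟨j, hj, rfl⟩
    exact hidx _ ((hξβ j hj.2).trans hβ)
  have hlX : l ∈ pcfS X := by
    refine ⟨J, fun k => idx θ (smooth (c β) (w k)), D', ?_, fun k => ⟨w k, hwmem k, rfl⟩, hl⟩
    intro k k' h
    exact hwinj (hξinj _ _ (idx_inj h))
  have hcl : ∀ i < (Order.succ κ).ord, idx θ (smooth (c β) i) < l := by
    intro i hi
    refine hl.lt_of_cof ?_
    filter_upwards [hD' i hi] with k hk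
    rw [(idx_reg _ _).cof_ord]
    exact idx_lt.2 (cont_lt (smooth_spec _) hk)
  -- localization
  obtain ⟨X', hX'X, hX'c, m, hm, hlm⟩ := weak_localization hYreg hG1 hG2 hG3 hG4 hXY hlX
  have hX'κ : #X' ≤ Cardinal.lift.{u+1} κ := hX'c.trans hYc
  let I' : Set Ordinal.{u} := {j | j ∈ W ∧ idx θ (smooth (c β) j) ∈ X'}
  have hI' : #I' ≤ Cardinal.lift.{u+1} κ := by
    refine le_trans ?_ hX'κ
    refine Cardinal.mk_le_of_injective
      (f := fun i : I' => (⟨idx θ (smooth (c β) i.1), i.2.2⟩ : X')) ?_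
    intro i j h
    exact Subtype.ext (hξinj _ _ (idx_inj (Subtype.mk.inj h)))
  have hsup : supOn I' (Order.succ κ).ord id < (Order.succ κ).ord := by
    refine supOn_lt ?_ fun i _ hi => hi
    rw [hκreg.cof_ord]
    exact hI'.trans_lt (Cardinal.lift_lt.2 (Order.lt_succ κ))
  have hX'Z : X' ⊆ Z (c β) (C ∩ Iio (Order.succ (supOn I' (Order.succ κ).ord id))) := by
    intro x hx
    obtain ⟨j, hj, rfl⟩ := hX'X hx
    exact ⟨j, ⟨hj.1, mem_Iio.2 (Order.lt_succ_iff.2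
      (le_supOn (G := id) (show j ∈ I' from ⟨hj, hx⟩) hj.2))⟩, rfl⟩
  obtain ⟨z, hz, hz'⟩ := hZβ _ (hκlim.succ_lt hsup)
  have h7 : m ≤ idx θ z := hz' (pcfS_mono hX'Z hm)
  obtain ⟨i, hi, hzi⟩ := cont_limit (smooth_spec (c β)) hκlim.isSuccPrelimit
    (show z < smooth (c β) (Order.succ κ).ord by rw [htop]; exact hz)
  exact absurd ((hcl i hi).trans_le (hlm.trans h7)) (not_lt.2 (idx_le.2 hzi.le))

/-- The stationary form. -/
theorem clubs_stat {κ lam : Cardinal.{u}} (h0 : ℵ₀ ≤ κ)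
    (hκlam : Order.succ κ < lam) {T : Set Ordinal.{u}} {D : Ordinal.{u} → Set Ordinal.{u}}
    (hD : ∀ P : Set (Set Ordinal.{u}), #P < Cardinal.lift.{u+1} lam → ∃ E, ClubIn E lam.ord ∧
        ∀ β ∈ T, β ∈ E → β < lam.ord → ∀ C ⊆ D β, UnbIn C (Order.succ κ).ord →
          ∃ i < (Order.succ κ).ord, C ∩ Iio i ∉ P) {C : Set Ordinal.{u}}
    (hC : UnbIn C (Order.succ κ).ord) :
    ¬ StatIn {β | β ∈ T ∧ ∃ ε < (Order.succ κ).ord,
        ∀ i ∈ C, ε ≤ i → i < (Order.succ κ).ord → i ∈ D β} lam.ord := by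
  intro hstat
  have hlim : Order.IsSuccLimit (Order.succ κ).ord :=
    Cardinal.isSuccLimit_ord (h0.trans (Order.le_succ κ))
  obtain ⟨E, hE, hE'⟩ := hD ((fun z : Ordinal.{u} × Ordinal.{u} =>
    (C ∩ Ici z.1 ∩ Iio (Order.succ κ).ord) ∩ Iio z.2) ''
      (Iio (Order.succ κ).ord ×ˢ Iio (Order.succ κ).ord)) (by
    refine Cardinal.mk_image_le.trans_lt ?_
    rw [Cardinal.mk_setProd, Cardinal.mk_Iio_ordinal, Cardinal.card_ord,
      Cardinal.mul_eq_self (Cardinal.aleph0_le_lift.2 (h0.trans (Order.le_succ κ)))]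
    exact Cardinal.lift_lt.2 hκlam)
  obtain ⟨β, ⟨hβT, ε, hε, hβ⟩, hβE, hβlam⟩ := hstat E hE
  obtain ⟨i, hi, h1⟩ := hE' β hβT hβE hβlam (C ∩ Ici ε ∩ Iio (Order.succ κ).ord)
    (fun j hj => hβ j hj.1.1 hj.1.2 hj.2) (by
      intro x hx
      obtain ⟨y, h1, h2, h3⟩ := hC (max x ε) (max_lt hx hε)
      exact ⟨y, ⟨⟨h1, (le_max_right x ε).trans h2.le⟩, h3⟩, (le_max_left x ε).trans_lt h2, h3⟩)
  exact h1 ⟨(ε, i), ⟨hε, hi⟩, rfl⟩

end Helper85.Refl
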