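import Pool.Agent.Helper85.Refl.Cor
import Pool.Agent.Helper85.Refl.Runs

/-!
The structure of a violation of `|pcf(a_α)| ≤ |a_α|`.  Let `α` be a limit ordinal with
`κ = |a_α| < μ = |pcf(a_α)|` and `|α| = ℵ_γ`.  Write `μ_δ = ℵ_{γ+6+δ+1}`.

(1) `μ ≤ κ^{+3}`; every limit ordinal `δ` with `α ≤ δ < γ + μ` is a violation with `|pcf(a_δ)| = μ`,
and the limit ordinal `γ + μ` is not a violation.

(2) Let `λ` be regular, `κ < λ ≤ μ`.  Then `μ_δ ∈ pcf(a_α)` for `δ < λ` and there are subsets `N_x`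
(`x ∈ a_α`) of `λ` which are closed for `pcf` and clubs `C_β` of `β` (`β < λ`, `cf β > ω`) with
`pcf {μ_δ : δ ∈ C_β} ≤ μ_β` such that `β ∈ N_x` whenever `N_x` meets `C_β`.  For every stationary
`S ⊆ λ` and every small `B ⊆ λ` (for example, a finite one) the set of all `x ∈ a_α` such that `N_x`
splits `S` into two stationary sets and avoids `B` has almost all `μ_δ`, `δ ∈ S`, in its `pcf`.  And
`pcf` spreads above almost all points of `λ` of cofinality at most `κ`.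

(3) Consequently, for `λ` as in (2), there are clubs `C_β` of `β` (`β < λ`, `cf β > ω`) such that
every stationary `S ⊆ λ` has at most `κ` stationary subsets `Z`, with `S \ Z` stationary, such that
for every finite `B ⊆ λ` one of the `Z` avoids `B` and all `C_β`, `β ∈ B`.  In particular, these `Z`
have no common reflection point.

Finally, for every infinite cardinal `κ` at least one of the initial ordinals `κ, κ⁺, κ⁺⁺, κ⁺⁺⁺` is
not a violation.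
-/

set_option autoImplicit false

open Cardinal Helper23.Pcf

universe u

namespace Helper85.Refl.DraftV2

/-- `μ_δ`, the successor of `ℵ_{γ+6+δ}` -/
noncomputable def mu (γ δ : Ordinal.{u}) : Cardinal.{u} := ℵ_ (γ + (6 : ℕ) + δ + 1)

/-- `B ⊆ λ` is small if `pcf {μ_δ : δ ∈ B}` has no member above `ℵ_{γ+6+λ}`. -/
def SmallSet (γ : Ordinal.{u}) (lam : Cardinal.{u}) (B : Set Ordinal.{u}) : Prop :=
  B ⊆ Set.Iio lam.ord ∧ ∀ c ∈ pcf (mu γ '' B), c ≤ ℵ_ (γ + (6 : ℕ) + lam.ord)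

theorem finite_small {γ : Ordinal.{u}} {lam : Cardinal.{u}} {B : Set Ordinal.{u}}
    (hB : B ⊆ Set.Iio lam.ord) (hfin : B.Finite) (hlam : ℵ₀ ≤ lam) : SmallSet γ lam B := by
  refine ⟨hB, fun c hc => ?_⟩
  have hreg : ∀ m ∈ mu γ '' B, m.IsRegular := by
    rintro _ ⟨δ, _, rfl⟩
    exact isRegular_aleph_add_one _
  have hsm : Small.{u} B := small_subset hB
  have hsm2 : Small.{u} (mu γ '' B) := small_image _ _
  rw [pcf_eq_pcfS hreg, pcfS_finite (hfin.image _) hreg] at hc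
  obtain ⟨δ, hδ, rfl⟩ := hc
  refine Cardinal.aleph_le_aleph.2 ?_
  rw [add_assoc]
  refine (add_le_add_iff_left _).2 ?_
  rw [← Order.succ_eq_add_one]
  exact ((Cardinal.isSuccLimit_ord hlam).succ_lt (hB hδ)).le

theorem structure_thm {α : Ordinal.{u}} {lam : Cardinal.{u}} (hα : Order.IsSuccLimit α)
    (hlam : lam.IsRegular) (hκlam : #(aSet α) < Cardinal.lift.{u + 1} lam)
    (hp : Cardinal.lift.{u + 1} lam ≤ #(pcf (aSet α))) :
    ∃ (γ : Ordinal.{u}) (N : Cardinal.{u} → Set Ordinal.{u}) (C : Ordinal.{u} → Set Ordinal.{u}),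
      α.card = ℵ_ γ ∧
      (∀ x, N x ⊆ Set.Iio lam.ord) ∧
      (∀ δ < lam.ord, mu γ δ ∈ pcf (aSet α)) ∧
      (∀ x, ∀ δ < lam.ord, mu γ δ ∈ pcf (mu γ '' N x) ↔ δ ∈ N x) ∧
      (∀ β < lam.ord, ℵ₀ < β.cof → C β ⊆ Set.Iio β ∧ ClubIn (C β) β ∧
        (∀ c ∈ pcf (mu γ '' C β), c ≤ mu γ β) ∧ ∀ x, (C β ∩ N x).Nonempty → β ∈ N x) ∧
      (∀ S, StatIn S lam.ord → ∀ B, SmallSet γ lam B → ∃ E, ClubIn E lam.ord ∧
        ∀ δ ∈ E, δ < lam.ord → δ ∈ S →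
          mu γ δ ∈ pcf {x | x ∈ aSet α ∧ StatIn (S ∩ N x) lam.ord ∧ StatIn (S \ N x) lam.ord ∧
            B ∩ N x = ∅}) ∧
      (∃ E, ClubIn E lam.ord ∧ ∀ δ ∈ E, δ < lam.ord →
        Cardinal.lift.{u + 1} δ.cof ≤ #(aSet α) →
        ∃ y ⊆ Set.Iio δ, #y ≤ #(aSet α) ∧ ∀ ζ < δ, ¬ SmallSet γ lam (y ∩ Set.Ioi ζ)) := by
  classical
  obtain ⟨γ, N, h1, h2, h3, h4, _, h6, h7, h8⟩ := Helper85.Refl.anatomy hα hlam hκlam hp
  have hC : ∀ β : Ordinal.{u}, ∃ C : Set Ordinal.{u}, β < lam.ord → ℵ₀ < β.cof →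
      C ⊆ Set.Iio β ∧ ClubIn C β ∧
        (∀ c ∈ pcf (mu γ '' C), c ≤ mu γ β) ∧ ∀ x, (C ∩ N x).Nonempty → β ∈ N x := by
    intro β
    by_cases hβ : β < lam.ord
    · by_cases hβ' : ℵ₀ < β.cof
      · obtain ⟨C, g1, g2, g3, g4⟩ := h6 β hβ hβ'
        exact ⟨C, fun _ _ => ⟨g1, g2, g4, fun x ⟨ε, k1, k2⟩ => g3 x ε k1 k2⟩⟩
      · exact ⟨∅, fun _ h => absurd h hβ'⟩
    · exact ⟨∅, fun h => absurd h hβ⟩
  choose C hC using hC
  refine ⟨γ, N, C, h1, h2, h3, h4, hC, ?_, ?_⟩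
  · intro S hS B hB
    obtain ⟨E, hE, hE'⟩ := h7 S hS B hB.1 hB.2
    refine ⟨E, hE, fun δ g1 g2 g3 => ?_⟩
    have h9 := hE' δ g1 g2 g3
    have h10 : {x | x ∈ aSet α ∧ StatIn (S ∩ N x) lam.ord ∧ StatIn (S \ N x) lam.ord ∧
        B ∩ N x = ∅} = {x | x ∈ aSet α ∧ StatIn (S ∩ N x) lam.ord ∧
          StatIn (S \ N x) lam.ord ∧ ∀ β ∈ B, β ∉ N x} := by
      ext x
      simp only [Set.mem_ofPred_eq, Set.eq_empty_iff_forall_notMem, Set.mem_inter_iff, not_and]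
    rw [h10]
    exact h9
  · obtain ⟨E, hE, hE'⟩ := h8
    refine ⟨E, hE, fun δ g1 g2 g3 => ?_⟩
    obtain ⟨y, k1, k2, k3⟩ := hE' δ g1 g2 g3
    refine ⟨y, k1, k2, fun ζ hζ hsm => ?_⟩
    obtain ⟨c, hc, hc'⟩ := k3 ζ hζ
    exact absurd (hsm.2 c hc) (not_le.2 hc')

theorem nonreflection {α : Ordinal.{u}} {lam : Cardinal.{u}} (hα : Order.IsSuccLimit α)
    (hlam : lam.IsRegular) (hκlam : #(aSet α) < Cardinal.lift.{u + 1} lam)
    (hp : Cardinal.lift.{u + 1} lam ≤ #(pcf (aSet α))) :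
    ∃ C : Ordinal.{u} → Set Ordinal.{u},
      (∀ β < lam.ord, ℵ₀ < β.cof → ClubIn (C β) β) ∧
      ∀ S, StatIn S lam.ord → ∃ T : Set (Set Ordinal.{u}), #T ≤ #(aSet α) ∧
        (∀ Z ∈ T, Z ⊆ S ∧ StatIn Z lam.ord ∧ StatIn (S \ Z) lam.ord) ∧
        ∀ B : Set Ordinal.{u}, B.Finite → B ⊆ Set.Iio lam.ord →
          ∃ Z ∈ T, ∀ β ∈ B, β ∉ Z ∧ (ℵ₀ < β.cof → Z ∩ C β = ∅) := by
  classical
  obtain ⟨γ, N, C, h1, h2, h3, h4, h5, h6, _⟩ := structure_thm hα hlam hκlam hp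
  refine ⟨C, fun β hβ hβ' => (h5 β hβ hβ').2.1, fun S hS => ?_⟩
  refine ⟨(fun x => S ∩ N x) '' {x | x ∈ aSet α ∧ StatIn (S ∩ N x) lam.ord ∧
    StatIn (S \ N x) lam.ord}, ?_, ?_, ?_⟩
  · exact Cardinal.mk_image_le.trans (Cardinal.mk_le_mk_of_subset fun x hx => hx.1)
  · rintro _ ⟨x, hx, rfl⟩
    refine ⟨Set.inter_subset_left, hx.2.1, ?_⟩
    rw [Set.sdiff_self_inter]
    exact hx.2.2
  · intro B hB hBlam
    obtain ⟨E, hE, hE'⟩ := h6 S hS B (finite_small hBlam hB hlam.1)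
    obtain ⟨δ, g1, g2, g3⟩ := hS E hE
    have h7 := hE' δ g2 g3 g1
    obtain ⟨x, hx⟩ : {x | x ∈ aSet α ∧ StatIn (S ∩ N x) lam.ord ∧ StatIn (S \ N x) lam.ord ∧
        B ∩ N x = ∅}.Nonempty := by
      by_contra hcon
      rw [Set.not_nonempty_iff_eq_empty] at hcon
      have hreg : ∀ m ∈ (∅ : Set Cardinal.{u}), m.IsRegular := fun m h => absurd h
        (Set.notMem_empty m)
      rw [hcon, pcf_eq_pcfS hreg, pcfS_empty] at h7
      exact h7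
    refine ⟨_, ⟨x, ⟨hx.1, hx.2.1, hx.2.2.1⟩, rfl⟩, fun β hβ => ⟨fun h => ?_, fun hcof => ?_⟩⟩
    · exact Set.eq_empty_iff_forall_notMem.1 hx.2.2.2 β ⟨hβ, h.2⟩
    · rw [Set.eq_empty_iff_forall_notMem]
      rintro ε ⟨⟨_, k1⟩, k2⟩
      exact Set.eq_empty_iff_forall_notMem.1 hx.2.2.2 β
        ⟨hβ, (h5 β (hBlam hβ) hcof).2.2.2 x ⟨ε, k2, k1⟩⟩

theorem result :
    (∀ α : Ordinal.{u}, Order.IsSuccLimit α → #(aSet α) < #(pcf (aSet α)) →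
      ∃ (γ : Ordinal.{u}) (κ μ : Cardinal.{u}), α.card = ℵ_ γ ∧
        #(aSet α) = Cardinal.lift.{u + 1} κ ∧ #(pcf (aSet α)) = Cardinal.lift.{u + 1} μ ∧
        -- (1) the run of violations
        (μ ≤ Order.succ (Order.succ (Order.succ κ)) ∧
          α < γ + μ.ord ∧ Order.IsSuccLimit (γ + μ.ord) ∧
          (∀ δ : Ordinal.{u}, Order.IsSuccLimit δ → α ≤ δ → δ < γ + μ.ord →
            #(aSet δ) < #(pcf (aSet δ)) ∧ #(pcf (aSet δ)) = Cardinal.lift.{u + 1} μ) ∧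
          #(aSet (γ + μ.ord)) = Cardinal.lift.{u + 1} μ ∧
          #(pcf (aSet (γ + μ.ord))) = Cardinal.lift.{u + 1} μ) ∧
        (∀ lam : Cardinal.{u}, lam.IsRegular → κ < lam → lam ≤ μ →
          -- (2) the structure of `pcf(a_α)` on `λ`
          (∃ (N : Cardinal.{u} → Set Ordinal.{u}) (C : Ordinal.{u} → Set Ordinal.{u}),
            (∀ x, N x ⊆ Set.Iio lam.ord) ∧
            (∀ δ < lam.ord, mu γ δ ∈ pcf (aSet α)) ∧
            (∀ x, ∀ δ < lam.ord, mu γ δ ∈ pcf (mu γ '' N x) ↔ δ ∈ N x) ∧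
            (∀ β < lam.ord, ℵ₀ < β.cof → C β ⊆ Set.Iio β ∧ ClubIn (C β) β ∧
              (∀ c ∈ pcf (mu γ '' C β), c ≤ mu γ β) ∧ ∀ x, (C β ∩ N x).Nonempty → β ∈ N x) ∧
            (∀ B ⊆ Set.Iio lam.ord, B.Finite → SmallSet γ lam B) ∧
            (∀ S, StatIn S lam.ord → ∀ B, SmallSet γ lam B → ∃ E, ClubIn E lam.ord ∧
              ∀ δ ∈ E, δ < lam.ord → δ ∈ S →
                mu γ δ ∈ pcf {x | x ∈ aSet α ∧ StatIn (S ∩ N x) lam.ord ∧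
                  StatIn (S \ N x) lam.ord ∧ B ∩ N x = ∅}) ∧
            (∃ E, ClubIn E lam.ord ∧ ∀ δ ∈ E, δ < lam.ord → δ.cof ≤ κ →
              ∃ y ⊆ Set.Iio δ, #y ≤ #(aSet α) ∧ ∀ ζ < δ, ¬ SmallSet γ lam (y ∩ Set.Ioi ζ))) ∧
          -- (3) no joint reflection
          (∃ C : Ordinal.{u} → Set Ordinal.{u},
            (∀ β < lam.ord, ℵ₀ < β.cof → ClubIn (C β) β) ∧
            ∀ S, StatIn S lam.ord → ∃ T : Set (Set Ordinal.{u}), #T ≤ #(aSet α) ∧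
              (∀ Z ∈ T, Z ⊆ S ∧ StatIn Z lam.ord ∧ StatIn (S \ Z) lam.ord) ∧
              ∀ B : Set Ordinal.{u}, B.Finite → B ⊆ Set.Iio lam.ord →
                ∃ Z ∈ T, ∀ β ∈ B, β ∉ Z ∧ (ℵ₀ < β.cof → Z ∩ C β = ∅)))) ∧
    (∀ κ : Cardinal.{u}, ℵ₀ ≤ κ →
      ∃ μ ∈ ({κ, Order.succ κ, Order.succ (Order.succ κ), Order.succ (Order.succ (Order.succ κ))} :
        Set Cardinal.{u}), #(pcf (aSet μ.ord)) ≤ #(aSet μ.ord)) := by
  refine ⟨fun α hα hviol => ?_, Helper85.Refl.runs.2⟩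
  have hne : (aSet α).Nonempty := by
    by_contra hcon
    rw [Set.not_nonempty_iff_eq_empty] at hcon
    rw [pcf_aSet, hcon, pcfS_empty] at hviol
    exact lt_irrefl _ hviol
  obtain ⟨γ, μ, h1, h2, h3, h4, h5, h6, h7, h8⟩ := Helper85.Refl.runs.1 α hα hviol
  obtain ⟨γ', hγ', _, _, hAc, h0, _⟩ := Helper85.Refl.setup' hα hne
  have hγγ : γ' = γ := by
    rw [hγ'] at h1
    exact le_antisymm (Cardinal.aleph_le_aleph.1 h1.le) (Cardinal.aleph_le_aleph.1 h1.ge)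
  subst hγγ
  set κ := (α - γ').card with hκdef
  have hκμ : κ < μ := by rw [hAc, h2, Cardinal.lift_lt] at hviol; exact hviol
  refine ⟨γ', κ, μ, h1, hAc, h2, ⟨?_, h4, h5, h6, h7, h8⟩, ?_⟩
  · rw [hAc, ← Cardinal.lift_succ, ← Cardinal.lift_succ, ← Cardinal.lift_succ,
      Cardinal.lift_le] at h3
    exact h3
  · intro lam hlam hκlam hlamμ
    have g1 : #(aSet α) < Cardinal.lift.{u + 1} lam := by
      rw [hAc]; exact Cardinal.lift_lt.2 hκlam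
    have g2 : Cardinal.lift.{u + 1} lam ≤ #(pcf (aSet α)) := by
      rw [h2]; exact Cardinal.lift_le.2 hlamμ
    refine ⟨?_, nonreflection hα hlam g1 g2⟩
    obtain ⟨γ'', N, C, k1, k2, k3, k4, k5, k6, k7⟩ := structure_thm hα hlam g1 g2
    have hγγ' : γ'' = γ' := by
      rw [k1] at h1
      exact le_antisymm (Cardinal.aleph_le_aleph.1 h1.le) (Cardinal.aleph_le_aleph.1 h1.ge)
    subst hγγ'
    refine ⟨N, C, k2, k3, k4, k5, fun B hB hB' => finite_small hB hB' hlam.1, k6, ?_⟩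
    obtain ⟨E, hE, hE'⟩ := k7
    refine ⟨E, hE, fun δ m1 m2 m3 => hE' δ m1 m2 ?_⟩
    rw [hAc]
    exact Cardinal.lift_le.2 m3

end Helper85.Refl.DraftV2
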