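import Pool.Agent.Helper85.Refl.Reflect

set_option autoImplicit false

open Cardinal Ordinal Set Filter Helper23.Pcf

universe u v

namespace Helper85.Refl

/-- A weak form of localization. -/
theorem weak_localization {Y : Set Cardinal.{u}} {G : Cardinal.{u} → Set Cardinal.{u}}
    (hYreg : ∀ m ∈ Y, m.IsRegular)
    (hG1 : ∀ l ∈ pcfS Y, G l ⊆ pcfS Y ∧ pcfS (G l) ⊆ G l ∧ (∀ m ∈ G l, m ≤ l) ∧
        ∀ m ∈ G l, G m ⊆ G l)
    (hG2 : ∀ Z ⊆ pcfS Y, ∀ l ∈ pcfS Z, l ∈ pcfS (Z ∩ G l))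
    (hG3 : ∀ Z ⊆ pcfS Y, ∃ F : Set Cardinal.{u}, F.Finite ∧ F ⊆ pcfS Z ∧ Z ⊆ ⋃ m ∈ F, G m)
    (hG4 : ∀ Z ⊆ pcfS Y, ∀ U ⊆ Y, Z ⊆ pcfS U → pcfS Z ⊆ pcfS U)
    {X : Set Cardinal.{u}} (hX : X ⊆ pcfS Y) {l : Cardinal.{u}} (hl : l ∈ pcfS X) :
    ∃ X' ⊆ X, #X' ≤ #Y ∧ ∃ c ∈ pcfS X', l ≤ c := by
  classical
  have hYY : Y ⊆ pcfS Y := self_subset_pcfS hYreg
  let U : Set Cardinal.{u} := {y | y ∈ Y ∧ ∃ x ∈ X, y ∈ G x}
  have hUY : U ⊆ Y := fun y h => h.1
  have hx : ∀ y : U, ∃ x ∈ X, y.1 ∈ G x := fun y => y.2.2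
  choose x hx1 hx2 using hx
  have hX'X : range x ⊆ X := by rintro _ ⟨y, rfl⟩; exact hx1 y
  refine ⟨range x, hX'X, Cardinal.mk_range_le.trans (Cardinal.mk_le_mk_of_subset hUY), ?_⟩
  by_contra hcon
  push Not at hcon
  obtain ⟨F, hF1, hF2, hF3⟩ := hG3 (range x) (hX'X.trans hX)
  have h1 : X ⊆ pcfS U := by
    intro z hz
    refine pcfS_mono ?_ (hG2 Y hYY z (hX hz))
    rintro y ⟨h1, h2⟩
    exact ⟨h1, z, hz, h2⟩
  have h2 : l ∈ pcfS U := hG4 X hX U hUY h1 hl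
  have h3 : pcfS (range x) ⊆ pcfS Y := hG4 _ (hX'X.trans hX) Y subset_rfl (hX'X.trans hX)
  have h4 : U ⊆ ⋃ m ∈ F, G m := by
    intro y hy
    obtain ⟨m, hm, hm'⟩ := mem_iUnion₂.1 (hF3 ⟨⟨y, hy⟩, rfl⟩)
    exact mem_iUnion₂.2 ⟨m, hm, (hG1 m (h3 (hF2 hm))).2.2.2 _ hm' (hx2 ⟨y, hy⟩)⟩
  obtain ⟨m, hm, h5⟩ := mem_iUnion₂.1 (pcfS_biUnion hF1 _ (pcfS_mono h4 h2))
  have h6 := hG1 m (h3 (hF2 hm))
  exact absurd (h6.2.2.1 _ (h6.2.1 h5)) (not_le.2 (hcon m (hF2 hm)))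

/-- enumeration of a family of at most `μ` sets -/
theorem exists_enum {𝓕 : Set (Set Ordinal.{u})} {μ : Cardinal.{u}}
    (h : #𝓕 ≤ Cardinal.lift.{u+1} μ) :
    ∃ f : Ordinal.{u} → Set Ordinal.{u}, ∀ Z ∈ 𝓕, ∃ ν < μ.ord, f ν = Z := by
  classical
  have h1 : #𝓕 ≤ #(Iio μ.ord) := by rw [Cardinal.mk_Iio_ordinal, Cardinal.card_ord]; exact h
  obtain ⟨g⟩ := h1
  refine ⟨fun ν => if h : ∃ Z : 𝓕, (g Z).1 = ν then h.choose.1 else ∅, fun Z hZ => ?_⟩
  refine ⟨(g ⟨Z, hZ⟩).1, (g ⟨Z, hZ⟩).2, ?_⟩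
  have h2 : ∃ Z' : 𝓕, (g Z').1 = (g ⟨Z, hZ⟩).1 := ⟨⟨Z, hZ⟩, rfl⟩
  beta_reduce
  rw [dif_pos h2]
  have h3 := g.injective (Subtype.ext h2.choose_spec)
  exact congrArg Subtype.val h3

/-- If `μ⁺ ≤ |pcf(a_α)|`, `|a_α| = κ < μ`, then for every family of `μ` sets there is a club of `μ`
without a subset of type `κ⁺` whose proper initial segments all belong to the family. -/
theorem no_guessing {α : Ordinal.{u}} {κ μ : Cardinal.{u}} (hα : Order.IsSuccLimit α)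
    (hκ : #(aSet α) = Cardinal.lift.{u+1} κ) (hμ : μ.IsRegular) (hκμ : κ < μ)
    (hp : Cardinal.lift.{u+1} (Order.succ μ) ≤ #(pcf (aSet α)))
    {𝓕 : Set (Set Ordinal.{u})} (h𝓕 : #𝓕 ≤ Cardinal.lift.{u+1} μ) :
    ∃ D : Set Ordinal.{u}, ClubIn D μ.ord ∧ ∀ e : Ordinal.{u} → Ordinal.{u},
      (∀ i < (Order.succ κ).ord, ∀ j < i, e j < e i) →
      (∀ i < (Order.succ κ).ord, e i ∈ D ∧ e i < μ.ord) →
      ∃ ε < (Order.succ κ).ord, e '' Iio ε ∉ 𝓕 := by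
  classical
  set lam := Order.succ μ with hlamdef
  have hlam : lam.IsRegular := Cardinal.isRegular_succ hμ.1
  have hμlam : μ < lam := Order.lt_succ μ
  have hlamlim : Order.IsSuccLimit lam.ord := Cardinal.isSuccLimit_ord hlam.1
  have hne : (aSet α).Nonempty := by
    by_contra hcon
    rw [Set.not_nonempty_iff_eq_empty] at hcon
    rw [pcf_aSet, hcon, pcfS_empty] at hp
    simp only [Cardinal.mk_eq_zero, nonpos_iff_eq_zero, Cardinal.lift_eq_zero] at hp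
    exact hlam.ne_zero hp
  obtain ⟨γ, hγα, hA, hAc, h0, hκγ⟩ := setup hα hne
  have hκeq : (α - γ).card = κ := by
    rw [hAc] at hκ
    exact Cardinal.lift_injective hκ
  rw [hκeq] at h0 hκγ
  rw [pcf_aSet, hA] at hp
  obtain ⟨θ, Y, G, _, hY, hYc, hG1, hG2, hG3, hG4, hidx, hclub⟩ :=
    exists_structure h0 hκeq hκγ hα hγα hlam (hκμ.trans hμlam) hp
  have hYreg : ∀ m ∈ Y, m.IsRegular := fun m hm => (hY hm).1
  have hμ0 : ℵ₀ < μ := h0.trans_lt hκμ
  have hκreg : (Order.succ κ).IsRegular := Cardinal.isRegular_succ h0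
  have hκlim : Order.IsSuccLimit (Order.succ κ).ord := Cardinal.isSuccLimit_ord hκreg.1
  obtain ⟨f, hf⟩ := exists_enum h𝓕
  -- the chain
  let W : Ordinal.{u} → (Ordinal.{u} → Ordinal.{u}) → Set Cardinal.{u} :=
    fun ν ζ => (fun x => idx θ (ζ x)) '' f ν
  let ee : Ordinal.{u} → (Ordinal.{u} → Ordinal.{u}) → Ordinal.{u} :=
    fun ν ζ => sInf {ε | pcfS (W ν ζ) ⊆ Iic (idx θ ε)}
  obtain ⟨ξ, hξ⟩ := exists_cont (fun _ ζ =>
    ⨆ ν : Iio μ.ord, if ee ν.1 ζ < lam.ord then ee ν.1 ζ else 0)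
  have hξlam : ∀ i < Order.succ μ.ord, ξ i < lam.ord := by
    refine cont_bound hξ hlamlim ?_ ?_
    · intro i _ ζ _
      refine iSup_Iio_lt ?_ fun ν => ?_
      · rw [hlam.cof_ord, Cardinal.card_ord]; exact hμlam
      · split_ifs with h
        · exact h
        · exact hlamlim.bot_lt
    · intro i hi
      have := Ordinal.card_le_card (Order.lt_succ_iff.1 hi)
      rw [Cardinal.card_ord] at this
      rw [hlam.cof_ord]
      exact this.trans_lt hμlam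
  have hμlim : Order.IsSuccLimit μ.ord := Cardinal.isSuccLimit_ord hμ.1
  set η := ξ μ.ord with hη
  have hηlam : η < lam.ord := hξlam _ (Order.lt_succ _)
  have hηcof : η.cof = μ := by rw [hη, cont_cof hξ hμlim, hμ.cof_ord]
  obtain ⟨C, hC, hC'⟩ := hclub η hηlam (by rw [hηcof]; exact hμ0)
  refine ⟨{i | ξ i ∈ C}, club_preimage hξ (by rw [hμ.cof_ord]; exact hμ0) hC, ?_⟩
  intro e he1 he2
  by_contra hcon
  push Not at hcon
  have hξη : ∀ i < (Order.succ κ).ord, ξ (e i) < η := fun i hi => cont_lt hξ (he2 i hi).2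
  have heinj : ∀ i < (Order.succ κ).ord, ∀ j < (Order.succ κ).ord, e i = e j → i = j := by
    intro i hi j hj h
    rcases lt_trichotomy i j with h' | h' | h'
    · exact absurd h (he1 j hj i h').ne
    · exact h'
    · exact absurd h (he1 i hi j h').ne'
  have hξinj : ∀ x y, ξ x = ξ y → x = y := by
    intro x y h
    rcases lt_trichotomy x y with h' | h' | h'
    · exact absurd h (cont_lt hξ h').ne
    · exact h'
    · exact absurd h (cont_lt hξ h').ne'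
  let c : Ordinal.{u} → Cardinal.{u} := fun i => idx θ (ξ (e i))
  have hcinj : ∀ i < (Order.succ κ).ord, ∀ j < (Order.succ κ).ord, c i = c j → i = j :=
    fun i hi j hj h => heinj i hi j hj (hξinj _ _ (idx_inj h))
  have hclt : ∀ i < (Order.succ κ).ord, ∀ j < i, c j < c i := fun i hi j hj =>
    idx_lt.2 (cont_lt hξ (he1 i hi j hj))
  -- an ultrafilter on the tails
  let K := (Order.succ κ).ord.ToType
  let w : K → Ordinal.{u} := fun k => ((ToType.mk (o := (Order.succ κ).ord)).symm k).1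
  have hw : ∀ k, w k < (Order.succ κ).ord := fun k =>
    ((ToType.mk (o := (Order.succ κ).ord)).symm k).2
  have hwinj : Function.Injective w := fun k k' h =>
    (ToType.mk (o := (Order.succ κ).ord)).symm.injective (Subtype.ext h)
  obtain ⟨D', hD'⟩ := exists_tail_uf w hκlim.bot_lt (by
    intro x hx
    refine ⟨ToType.mk (o := (Order.succ κ).ord) ⟨Order.succ x, hκlim.succ_lt hx⟩, ?_⟩
    simp only [w, OrderIso.symm_apply_apply]
    exact Order.lt_succ x)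
  obtain ⟨l, hl⟩ := exists_hasCof D' (fun k => (c (w k)).ord)
    (Filter.Eventually.of_forall fun k => Cardinal.isSuccLimit_ord (idx_reg _ _).1)
  let X : Set Cardinal.{u} := c '' Iio (Order.succ κ).ord
  have hXY : X ⊆ pcfS Y := by
    rintro _ ⟨i, hi, rfl⟩
    exact hidx _ ((hξη i hi).trans hηlam)
  have hlX : l ∈ pcfS X := by
    refine ⟨K, fun k => c (w k), D', ?_, fun k => ⟨w k, hw k, rfl⟩, hl⟩
    intro k k' h
    exact hwinj (hcinj _ (hw k) _ (hw k') h)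
  have hcl : ∀ i < (Order.succ κ).ord, c i < l := by
    intro i hi
    refine hl.lt_of_cof ?_
    filter_upwards [hD' i hi] with k hk
    rw [(idx_reg _ _).cof_ord]
    exact hclt _ (hw k) i hk
  -- localization
  obtain ⟨X', hX'X, hX'c, m, hm, hlm⟩ := weak_localization hYreg hG1 hG2 hG3 hG4 hXY hlX
  have hX'κ : #X' ≤ Cardinal.lift.{u+1} κ := hX'c.trans hYc
  let I' : Set Ordinal.{u} := {i | i < (Order.succ κ).ord ∧ c i ∈ X'}
  have hI' : #I' ≤ Cardinal.lift.{u+1} κ := by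
    refine le_trans ?_ hX'κ
    refine Cardinal.mk_le_of_injective (f := fun i : I' => (⟨c i.1, i.2.2⟩ : X')) ?_
    intro i j h
    exact Subtype.ext (hcinj _ i.2.1 _ j.2.1 (Subtype.mk.inj h))
  have hsup : supOn I' (Order.succ κ).ord id < (Order.succ κ).ord := by
    refine supOn_lt ?_ fun i _ hi => hi
    rw [hκreg.cof_ord]
    exact hI'.trans_lt (Cardinal.lift_lt.2 (Order.lt_succ κ))
  set ε := Order.succ (supOn I' (Order.succ κ).ord id) with hε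
  have hεκ : ε < (Order.succ κ).ord := hκlim.succ_lt hsup
  have hsε : Order.succ ε < (Order.succ κ).ord := hκlim.succ_lt hεκ
  obtain ⟨ν, hν, hfν⟩ := hf _ (hcon ε hεκ)
  have hX'W : X' ⊆ W ν ξ := by
    intro x hx
    obtain ⟨i, hi, rfl⟩ := hX'X hx
    refine ⟨e i, ?_, rfl⟩
    rw [hfν]
    refine ⟨i, ?_, rfl⟩
    exact Order.lt_succ_iff.2 (le_supOn (G := id) (show i ∈ I' from ⟨hi, hx⟩) hi)
  have hWη : pcfS (W ν ξ) ⊆ Iic (idx θ η) := by
    have h1 : W ν ξ ⊆ G (idx θ η) := by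
      rintro _ ⟨x, hx, rfl⟩
      rw [hfν] at hx
      obtain ⟨i, hi, rfl⟩ := hx
      have hi' : i < (Order.succ κ).ord := lt_trans hi hεκ
      exact hC' _ (he2 i hi').1 (hξη i hi')
    have h2 := hG1 _ (hidx η hηlam)
    intro z hz
    exact h2.2.2.1 z (h2.2.1 (pcfS_mono h1 hz))
  have htr : W ν (fun k => if k ≤ e ε then ξ k else 0) = W ν ξ := by
    refine Set.image_congr fun x hx => ?_
    rw [hfν] at hx
    obtain ⟨i, hi, rfl⟩ := hx
    simp only [if_pos (he1 ε hεκ i hi).le]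
  have h3 : ee ν (fun k => if k ≤ e ε then ξ k else 0) ≤ η := by
    refine csInf_le' ?_
    show pcfS (W ν (fun k => if k ≤ e ε then ξ k else 0)) ⊆ Iic (idx θ η)
    rw [htr]; exact hWη
  have h4 : pcfS (W ν ξ) ⊆ Iic (idx θ (ee ν (fun k => if k ≤ e ε then ξ k else 0))) := by
    have h5 := csInf_mem (s := {ε' | pcfS (W ν (fun k => if k ≤ e ε then ξ k else 0)) ⊆
      Iic (idx θ ε')}) ⟨η, by
        show pcfS (W ν (fun k => if k ≤ e ε then ξ k else 0)) ⊆ Iic (idx θ η)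
        rw [htr]; exact hWη⟩
    have h6 : pcfS (W ν (fun k => if k ≤ e ε then ξ k else 0)) ⊆
      Iic (idx θ (ee ν (fun k => if k ≤ e ε then ξ k else 0))) := h5
    rw [htr] at h6
    exact h6
  have h5 := cont_step hξ (he1 _ hsε ε (Order.lt_succ ε))
  have h6 := (Ordinal.le_iSup (fun ν : Iio μ.ord =>
    if ee ν.1 (fun k => if k ≤ e ε then ξ k else 0) < lam.ord then
      ee ν.1 (fun k => if k ≤ e ε then ξ k else 0) else 0) ⟨ν, hν⟩).trans h5
  simp only [if_pos (h3.trans_lt hηlam)] at h6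
  have h7 : m ≤ idx θ (ξ (e (Order.succ ε))) :=
    (h4 (pcfS_mono hX'W hm)).trans (idx_le.2 h6)
  exact absurd (hlm.trans h7) (not_le.2 (hcl _ hsε))

end Helper85.Refl
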