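import Pool.Agent.Helper85.Refl.Cor

/-!
Non-reflection from a violation of `|pcf(a_α)| ≤ |a_α|`: `structure_thm` (the structure of
`pcf(a_α)` on a regular `λ ≤ |pcf(a_α)|`) and `nonreflection`.
-/

set_option autoImplicit false

open Cardinal Helper23.Pcf

universe u

namespace Helper85.Refl.NonR

/-- `μ_δ`, the successor of `ℵ_{γ+6+δ}` -/
noncomputable def mu (γ δ : Ordinal.{u}) : Cardinal.{u} := ℵ_ (γ + (6 : ℕ) + δ + 1)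

/-- `B ⊆ λ` is small if `pcf {μ_δ : δ ∈ B}` has no member above `ℵ_{γ+6+λ}`. -/
def SmallSet (γ : Ordinal.{u}) (lam : Cardinal.{u}) (B : Set Ordinal.{u}) : Prop :=
  B ⊆ Set.Iio lam.ord ∧ ∀ c ∈ pcf (mu γ '' B), c ≤ ℵ_ (γ + (6 : ℕ) + lam.ord)

theorem finite_small {γ : Ordinal.{u}} {lam : Cardinal.{u}} {B : Set Ordinal.{u}}
    (hB : B ⊆ Set.Iio lam.ord) (hfin : B.Finite) (hlam : ℵ₀ ≤ lam) : SmallSet γ lam B := by
  refine ⟨hB, fun c hc => ?_⟩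
  have hreg : ∀ m ∈ mu γ '' B, m.IsRegular := by
    rintro _ ⟨δ, _, rfl⟩
    exact isRegular_aleph_add_one _
  have hsm : Small.{u} B := small_subset hB
  have hsm2 : Small.{u} (mu γ '' B) := small_image _ _
  rw [pcf_eq_pcfS hreg, pcfS_finite (hfin.image _) hreg] at hc
  obtain ⟨δ, hδ, rfl⟩ := hc
  refine Cardinal.aleph_le_aleph.2 ?_
  rw [add_assoc]
  refine (add_le_add_iff_left _).2 ?_
  rw [← Order.succ_eq_add_one]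
  exact ((Cardinal.isSuccLimit_ord hlam).succ_lt (hB hδ)).le

theorem structure_thm {α : Ordinal.{u}} {lam : Cardinal.{u}} (hα : Order.IsSuccLimit α)
    (hlam : lam.IsRegular) (hκlam : #(aSet α) < Cardinal.lift.{u + 1} lam)
    (hp : Cardinal.lift.{u + 1} lam ≤ #(pcf (aSet α))) :
    ∃ (γ : Ordinal.{u}) (N : Cardinal.{u} → Set Ordinal.{u}) (C : Ordinal.{u} → Set Ordinal.{u}),
      α.card = ℵ_ γ ∧
      (∀ x, N x ⊆ Set.Iio lam.ord) ∧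
      (∀ δ < lam.ord, mu γ δ ∈ pcf (aSet α)) ∧
      (∀ x, ∀ δ < lam.ord, mu γ δ ∈ pcf (mu γ '' N x) ↔ δ ∈ N x) ∧
      (∀ β < lam.ord, ℵ₀ < β.cof → C β ⊆ Set.Iio β ∧ ClubIn (C β) β ∧
        (∀ c ∈ pcf (mu γ '' C β), c ≤ mu γ β) ∧ ∀ x, (C β ∩ N x).Nonempty → β ∈ N x) ∧
      (∀ S, StatIn S lam.ord → ∀ B, SmallSet γ lam B → ∃ E, ClubIn E lam.ord ∧
        ∀ δ ∈ E, δ < lam.ord → δ ∈ S →
          mu γ δ ∈ pcf {x | x ∈ aSet α ∧ StatIn (S ∩ N x) lam.ord ∧ StatIn (S \ N x) lam.ord ∧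
            B ∩ N x = ∅}) ∧
      (∃ E, ClubIn E lam.ord ∧ ∀ δ ∈ E, δ < lam.ord →
        Cardinal.lift.{u + 1} δ.cof ≤ #(aSet α) →
        ∃ y ⊆ Set.Iio δ, #y ≤ #(aSet α) ∧ ∀ ζ < δ, ¬ SmallSet γ lam (y ∩ Set.Ioi ζ)) := by
  classical
  obtain ⟨γ, N, h1, h2, h3, h4, _, h6, h7, h8⟩ := Helper85.Refl.anatomy hα hlam hκlam hp
  have hC : ∀ β : Ordinal.{u}, ∃ C : Set Ordinal.{u}, β < lam.ord → ℵ₀ < β.cof →
      C ⊆ Set.Iio β ∧ ClubIn C β ∧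
        (∀ c ∈ pcf (mu γ '' C), c ≤ mu γ β) ∧ ∀ x, (C ∩ N x).Nonempty → β ∈ N x := by
    intro β
    by_cases hβ : β < lam.ord
    · by_cases hβ' : ℵ₀ < β.cof
      · obtain ⟨C, g1, g2, g3, g4⟩ := h6 β hβ hβ'
        exact ⟨C, fun _ _ => ⟨g1, g2, g4, fun x ⟨ε, k1, k2⟩ => g3 x ε k1 k2⟩⟩
      · exact ⟨∅, fun _ h => absurd h hβ'⟩
    · exact ⟨∅, fun h => absurd h hβ⟩
  choose C hC using hC
  refine ⟨γ, N, C, h1, h2, h3, h4, hC, ?_, ?_⟩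
  · intro S hS B hB
    obtain ⟨E, hE, hE'⟩ := h7 S hS B hB.1 hB.2
    refine ⟨E, hE, fun δ g1 g2 g3 => ?_⟩
    have h9 := hE' δ g1 g2 g3
    have h10 : {x | x ∈ aSet α ∧ StatIn (S ∩ N x) lam.ord ∧ StatIn (S \ N x) lam.ord ∧
        B ∩ N x = ∅} = {x | x ∈ aSet α ∧ StatIn (S ∩ N x) lam.ord ∧
          StatIn (S \ N x) lam.ord ∧ ∀ β ∈ B, β ∉ N x} := by
      ext x
      simp only [Set.mem_ofPred_eq, Set.eq_empty_iff_forall_notMem, Set.mem_inter_iff, not_and]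
    rw [h10]
    exact h9
  · obtain ⟨E, hE, hE'⟩ := h8
    refine ⟨E, hE, fun δ g1 g2 g3 => ?_⟩
    obtain ⟨y, k1, k2, k3⟩ := hE' δ g1 g2 g3
    refine ⟨y, k1, k2, fun ζ hζ hsm => ?_⟩
    obtain ⟨c, hc, hc'⟩ := k3 ζ hζ
    exact absurd (hsm.2 c hc) (not_le.2 hc')

theorem nonreflection {α : Ordinal.{u}} {lam : Cardinal.{u}} (hα : Order.IsSuccLimit α)
    (hlam : lam.IsRegular) (hκlam : #(aSet α) < Cardinal.lift.{u + 1} lam)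
    (hp : Cardinal.lift.{u + 1} lam ≤ #(pcf (aSet α))) :
    ∃ C : Ordinal.{u} → Set Ordinal.{u},
      (∀ β < lam.ord, ℵ₀ < β.cof → ClubIn (C β) β) ∧
      ∀ S, StatIn S lam.ord → ∃ T : Set (Set Ordinal.{u}), #T ≤ #(aSet α) ∧
        (∀ Z ∈ T, Z ⊆ S ∧ StatIn Z lam.ord ∧ StatIn (S \ Z) lam.ord) ∧
        ∀ B : Set Ordinal.{u}, B.Finite → B ⊆ Set.Iio lam.ord →
          ∃ Z ∈ T, ∀ β ∈ B, β ∉ Z ∧ (ℵ₀ < β.cof → Z ∩ C β = ∅) := by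
  classical
  obtain ⟨γ, N, C, h1, h2, h3, h4, h5, h6, _⟩ := structure_thm hα hlam hκlam hp
  refine ⟨C, fun β hβ hβ' => (h5 β hβ hβ').2.1, fun S hS => ?_⟩
  refine ⟨(fun x => S ∩ N x) '' {x | x ∈ aSet α ∧ StatIn (S ∩ N x) lam.ord ∧
    StatIn (S \ N x) lam.ord}, ?_, ?_, ?_⟩
  · exact Cardinal.mk_image_le.trans (Cardinal.mk_le_mk_of_subset fun x hx => hx.1)
  · rintro _ ⟨x, hx, rfl⟩
    refine ⟨Set.inter_subset_left, hx.2.1, ?_⟩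
    rw [Set.sdiff_self_inter]
    exact hx.2.2
  · intro B hB hBlam
    obtain ⟨E, hE, hE'⟩ := h6 S hS B (finite_small hBlam hB hlam.1)
    obtain ⟨δ, g1, g2, g3⟩ := hS E hE
    have h7 := hE' δ g2 g3 g1
    obtain ⟨x, hx⟩ : {x | x ∈ aSet α ∧ StatIn (S ∩ N x) lam.ord ∧ StatIn (S \ N x) lam.ord ∧
        B ∩ N x = ∅}.Nonempty := by
      by_contra hcon
      rw [Set.not_nonempty_iff_eq_empty] at hcon
      have hreg : ∀ m ∈ (∅ : Set Cardinal.{u}), m.IsRegular := fun m h => absurd h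
        (Set.notMem_empty m)
      rw [hcon, pcf_eq_pcfS hreg, pcfS_empty] at h7
      exact h7
    refine ⟨_, ⟨x, ⟨hx.1, hx.2.1, hx.2.2.1⟩, rfl⟩, fun β hβ => ⟨fun h => ?_, fun hcof => ?_⟩⟩
    · exact Set.eq_empty_iff_forall_notMem.1 hx.2.2.2 β ⟨hβ, h.2⟩
    · rw [Set.eq_empty_iff_forall_notMem]
      rintro ε ⟨⟨_, k1⟩, k2⟩
      exact Set.eq_empty_iff_forall_notMem.1 hx.2.2.2 β
        ⟨hβ, (h5 β (hBlam hβ) hcof).2.2.2 x ⟨ε, k2, k1⟩⟩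

end Helper85.Refl.NonR
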