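import Pool.Agent.Helper85.Refl.Structure

set_option autoImplicit false

open Cardinal Ordinal Set Filter Helper23.Pcf

universe u v

namespace Helper85.Refl

theorem pcfS_biUnion {I : Type v} {F : Set I} (hF : F.Finite) (s : I → Set Cardinal.{u}) :
    pcfS (⋃ i ∈ F, s i) ⊆ ⋃ i ∈ F, pcfS (s i) := by
  induction F, hF using Set.Finite.induction_on with
  | empty =>
    simp only [Set.mem_empty_iff_false, Set.iUnion_of_empty, Set.iUnion_empty]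
    rw [pcfS_empty]
  | @insert a F _ _ ih =>
    rw [Set.biUnion_insert, Set.biUnion_insert, pcfS_union]
    exact Set.union_subset_union_right _ ih

/-- the data for a limit ordinal `α` -/
theorem setup {α : Ordinal.{u}} (hα : Order.IsSuccLimit α) (hne : (aSet α).Nonempty) :
    ∃ (γ : Ordinal.{u}), γ < α ∧ aSet α = ival (ℵ_ γ) (ℵ_ α) ∧
      #(aSet α) = Cardinal.lift.{u + 1} (α - γ).card ∧ ℵ₀ ≤ (α - γ).card ∧
      (α - γ).card ≤ ℵ_ γ := by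
  have hα0 : ℵ₀ ≤ α.card := by
    rw [Ordinal.aleph0_le_card]
    exact Ordinal.omega0_le_of_isSuccLimit hα
  obtain ⟨γ, hγ'⟩ := Cardinal.mem_range_aleph_iff.2 hα0
  have hγ : α.card = ℵ_ γ := hγ'.symm
  have hγα : γ < α := by
    obtain ⟨κ, hκ⟩ := hne
    rw [← Cardinal.aleph_lt_aleph, hγ']
    exact (Order.succ_le_iff.1 hκ.2.1).trans hκ.2.2
  have hA : aSet α = ival (ℵ_ γ) (ℵ_ α) := aSet_eq hγ
  refine ⟨γ, hγα, hA, by rw [hA, mk_ival hα hγα], ?_, ?_⟩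
  · rw [Ordinal.aleph0_le_card]
    exact Ordinal.omega0_le_of_isSuccLimit (sub_isSuccLimit hα hγα)
  · rw [← hγ]; exact Ordinal.card_le_card (Ordinal.sub_le_self _ _)

/-- The traces of the generators. -/
theorem exists_traces {α : Ordinal.{u}} {lam : Cardinal.{u}} (hα : Order.IsSuccLimit α)
    (hlam : lam.IsRegular) (hκlam : #(aSet α) < Cardinal.lift.{u+1} lam)
    (hp : Cardinal.lift.{u+1} lam ≤ #(pcf (aSet α))) :
    ∃ t : Ordinal.{u} → Set Cardinal.{u}, (∀ δ, t δ ⊆ aSet α) ∧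
      (∀ δ < lam.ord, ∀ F : Set Ordinal.{u}, F.Finite → (∀ γ ∈ F, γ < δ) →
        ¬ t δ ⊆ ⋃ γ ∈ F, t γ) ∧
      (∀ β < lam.ord, ℵ₀ < β.cof → ∃ C, ClubIn C β ∧ ∀ δ ∈ C, δ < β → t δ ⊆ t β) := by
  have hne : (aSet α).Nonempty := by
    by_contra hcon
    rw [Set.not_nonempty_iff_eq_empty] at hcon
    rw [pcf_aSet, hcon, pcfS_empty] at hp
    simp only [Cardinal.mk_eq_zero, nonpos_iff_eq_zero, Cardinal.lift_eq_zero] at hp
    exact hlam.ne_zero hp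
  obtain ⟨γ, hγα, hA, hAc, h0, hκγ⟩ := setup hα hne
  rw [hAc, Cardinal.lift_lt] at hκlam
  rw [pcf_aSet, hA] at hp
  obtain ⟨θ, Y, G, _, hY, _, hG1, hG2, _, _, hidx, hclub⟩ :=
    exists_structure h0 rfl hκγ hα hγα hlam hκlam hp
  have hYreg : ∀ m ∈ Y, m.IsRegular := fun m hm => (hY hm).1
  refine ⟨fun δ => Y ∩ G (idx θ δ), fun δ => inter_subset_left.trans (hY.trans hA.ge), ?_, ?_⟩
  · intro δ hδ F hF hFδ hsub
    have h1 : idx θ δ ∈ pcfS (Y ∩ G (idx θ δ)) :=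
      hG2 Y (self_subset_pcfS hYreg) _ (hidx δ hδ)
    have h2 : Y ∩ G (idx θ δ) ⊆ ⋃ γ ∈ F, G (idx θ γ) :=
      hsub.trans (iUnion₂_mono fun γ _ => inter_subset_right)
    obtain ⟨γ, hγ, h3⟩ := mem_iUnion₂.1 (pcfS_biUnion hF _ (pcfS_mono h2 h1))
    have h4 := hG1 _ (hidx γ ((hFδ γ hγ).trans hδ))
    exact absurd (idx_le.1 (h4.2.2.1 _ (h4.2.1 h3))) (not_le.2 (hFδ γ hγ))
  · intro β hβ hβcof
    obtain ⟨C, hC, hC'⟩ := hclub β hβ hβcof
    refine ⟨C, hC, fun δ hδ hδβ => inter_subset_inter_right _ ?_⟩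
    exact (hG1 _ (hidx β hβ)).2.2.2 _ (hC' δ hδ hδβ)

/-- intersections of clubs indexed by a set in the next universe -/
theorem club_iInter_set {o : Ordinal.{u}} (ho : ℵ₀ < o.cof) {A : Set Cardinal.{u}}
    [Small.{u} A] (hA : #A < Cardinal.lift.{u+1} o.cof) (E : Cardinal.{u} → Set Ordinal.{u})
    (hE : ∀ x ∈ A, ClubIn (E x) o) : ClubIn (⋂ x ∈ A, E x) o := by
  have h1 : (⋂ x ∈ A, E x) = ⋂ i : Shrink.{u} A, E ((equivShrink A).symm i).1 := by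
    ext z
    simp only [mem_iInter]
    constructor
    · intro h i
      exact h _ ((equivShrink A).symm i).2
    · intro h x hx
      have := h (equivShrink A ⟨x, hx⟩)
      simpa using this
  rw [h1]
  refine club_iInter ho ?_ _ (fun i => hE _ ((equivShrink A).symm i).2)
  have h2 : Cardinal.lift.{u+1} #(Shrink.{u} A) ≤ #A :=
    lift_mk_le_of_inj _ (equivShrink A).symm.injective
  exact Cardinal.lift_lt.1 (h2.trans_lt hA)

theorem exists_bound {B : Set Ordinal.{u}} (hB : B.Finite) {o : Ordinal.{u}} (ho : 0 < o)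
    (h : ∀ β ∈ B, β < o) : ∃ b < o, ∀ β ∈ B, β ≤ b := by
  induction B, hB using Set.Finite.induction_on with
  | empty => exact ⟨0, ho, fun β h => absurd h (Set.notMem_empty β)⟩
  | @insert a B _ _ ih =>
    obtain ⟨b, h1, h2⟩ := ih (fun β h' => h β (Set.mem_insert_of_mem _ h'))
    refine ⟨max a b, max_lt (h a (Set.mem_insert _ _)) h1, ?_⟩
    rintro β (rfl | h')
    · exact le_max_left _ _
    · exact (h2 β h').trans (le_max_right _ _)

/-- Nonreflection. -/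
theorem nonreflection {A : Set Cardinal.{u}} [Small.{u} A] {lam : Cardinal.{u}}
    (hlam : lam.IsRegular) (hlam0 : ℵ₀ < lam) (hκlam : #A < Cardinal.lift.{u+1} lam)
    {t : Ordinal.{u} → Set Cardinal.{u}} (ht : ∀ δ, t δ ⊆ A)
    (ht1 : ∀ δ < lam.ord, ∀ F : Set Ordinal.{u}, F.Finite → (∀ γ ∈ F, γ < δ) →
        ¬ t δ ⊆ ⋃ γ ∈ F, t γ)
    (ht2 : ∀ β < lam.ord, ℵ₀ < β.cof → ∃ C, ClubIn C β ∧ ∀ δ ∈ C, δ < β → t δ ⊆ t β)
    {S : Set Ordinal.{u}} (hS : StatIn S lam.ord) {B : Set Ordinal.{u}} (hB : B.Finite)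
    (hBlam : ∀ β ∈ B, β < lam.ord) :
    ∃ x ∈ A, StatIn (S ∩ {δ | x ∈ t δ}) lam.ord ∧
      ∀ β ∈ B, ℵ₀ < β.cof → ¬ StatIn {δ | x ∈ t δ} β := by
  classical
  by_contra hcon
  push Not at hcon
  have hcof : ℵ₀ < lam.ord.cof := by rw [hlam.cof_ord]; exact hlam0
  have hlim : Order.IsSuccLimit lam.ord := Cardinal.isSuccLimit_ord hlam.1
  set T : Set Cardinal.{u} := {x | x ∈ A ∧ StatIn (S ∩ {δ | x ∈ t δ}) lam.ord} with hT
  -- clubs for the other elements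
  have hE : ∀ x : Cardinal.{u}, ∃ E : Set Ordinal.{u}, ClubIn E lam.ord ∧
      (x ∈ A → x ∉ T → ∀ δ ∈ E, δ < lam.ord → δ ∈ S → x ∉ t δ) := by
    intro x
    by_cases hx : StatIn (S ∩ {δ | x ∈ t δ}) lam.ord
    · refine ⟨Set.univ, ⟨fun y hy => ⟨Order.succ y, trivial, Order.lt_succ y, hlim.succ_lt hy⟩,
        fun _ _ _ _ => trivial⟩, fun h1 h2 => absurd ⟨h1, hx⟩ h2⟩
    · simp only [StatIn, not_forall] at hx
      obtain ⟨E, hE, hE'⟩ := hx
      exact ⟨E, hE, fun _ _ δ h1 h2 h3 h4 => hE' ⟨δ, ⟨h3, h4⟩, h1, h2⟩⟩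
  choose E hE1 hE2 using hE
  have hclub : ClubIn (⋂ x ∈ A, E x) lam.ord :=
    club_iInter_set hcof (by rw [hlam.cof_ord]; exact hκlam) E (fun x _ => hE1 x)
  -- a bound for the reflection points
  obtain ⟨b, hb, hbB⟩ := exists_bound hB hlim.bot_lt hBlam
  obtain ⟨δ, hδS, ⟨hδE, hδb⟩, hδ⟩ := hS _ (club_inter hcof hclub (club_Ioi hlim hb))
  refine ht1 δ hδ B hB (fun β hβ => (hbB β hβ).trans_lt hδb) ?_
  intro x hx
  have hxT : x ∈ T := by
    by_contra hxT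
    exact hE2 x (ht δ hx) hxT δ (mem_iInter₂.1 hδE x (ht δ hx)) hδ hδS hx
  obtain ⟨β, hβ, hβcof, hβS⟩ := hcon x hxT.1 hxT.2
  obtain ⟨C, hC, hC'⟩ := ht2 β (hBlam β hβ) hβcof
  obtain ⟨ε, h1, h2, h3⟩ := hβS C hC
  exact mem_iUnion₂.2 ⟨β, hβ, hC' ε h2 h3 h1⟩

end Helper85.Refl
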