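import Pool.Agent.Helper23.Pcf.Kurepa

set_option autoImplicit false

open Cardinal Ordinal Set Filter Helper23.Pcf

universe u v

namespace Helper85.Refl

/-- an ultrafilter concentrating on all tails -/
theorem exists_tail_uf {J : Type u} (w : J → Ordinal.{u}) {β : Ordinal.{u}} (hβ : 0 < β)
    (hunb : ∀ x < β, ∃ j, x < w j) :
    ∃ D : Ultrafilter J, ∀ x < β, ∀ᶠ j in D, x < w j := by
  have hne : (tailF w β hβ).NeBot := by
    rw [Filter.neBot_iff]
    intro h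
    have h1 : (∅ : Set J) ∈ tailF w β hβ := by rw [h]; exact Filter.mem_bot
    obtain ⟨x, hx, hx'⟩ := mem_tailF.1 h1
    obtain ⟨j, hj⟩ := hunb x hx
    exact hx' j hj
  refine ⟨Ultrafilter.of (tailF w β hβ), fun x hx => ?_⟩
  have h1 : {j | x < w j} ∈ tailF w β hβ := mem_tailF.2 ⟨x, hx, fun i hi => hi⟩
  exact (Ultrafilter.of_le (tailF w β hβ)) h1

/-- the regular cardinals after `ℵ_θ` -/
noncomputable def idx (θ δ : Ordinal.{u}) : Cardinal.{u} := ℵ_ (θ + δ + 1)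

theorem idx_lt {θ δ δ' : Ordinal.{u}} : idx θ δ < idx θ δ' ↔ δ < δ' := by
  unfold idx
  rw [Cardinal.aleph_lt_aleph, ← Order.succ_eq_add_one, ← Order.succ_eq_add_one,
    Order.succ_lt_succ_iff, add_lt_add_iff_left]

theorem idx_le {θ δ δ' : Ordinal.{u}} : idx θ δ ≤ idx θ δ' ↔ δ ≤ δ' := by
  rw [← not_lt, ← not_lt, idx_lt]

theorem idx_inj {θ δ δ' : Ordinal.{u}} (h : idx θ δ = idx θ δ') : δ = δ' :=
  le_antisymm (idx_le.1 h.le) (idx_le.1 h.ge)

theorem idx_reg (θ δ : Ordinal.{u}) : (idx θ δ).IsRegular := isRegular_aleph_add_one _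

/-- the shift of a club is a club -/
theorem club_shift {θ β : Ordinal.{u}} (_hβ : Order.IsSuccLimit β) {E : Set Ordinal.{u}}
    (hE : ClubIn E (θ + β)) : ClubIn {δ | θ + δ ∈ E} β := by
  refine ⟨?_, ?_⟩
  · intro x hx
    obtain ⟨y, h1, h2, h3⟩ := hE.unb (θ + x) ((add_lt_add_iff_left θ).2 hx)
    have h4 : θ ≤ y := le_self_add.trans h2.le
    refine ⟨y - θ, ?_, ?_, ?_⟩
    · show θ + (y - θ) ∈ E
      rw [Ordinal.add_sub_cancel_of_le h4]; exact h1
    · rw [← add_lt_add_iff_left θ, Ordinal.add_sub_cancel_of_le h4]; exact h2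
    · rw [← add_lt_add_iff_left θ, Ordinal.add_sub_cancel_of_le h4]; exact h3
  · intro δ hδ hδ0 hu
    have hδlim := hu.isSuccLimit hδ0
    refine hE.cl (θ + δ) ((add_lt_add_iff_left θ).2 hδ) (hδ0.trans_le le_add_self) ?_
    intro w hw
    have hlim : Order.IsSuccLimit (θ + δ) := Ordinal.isSuccLimit_add θ hδlim
    obtain ⟨v, hv, hwv⟩ : ∃ v < δ, w < θ + v := by
      rcases le_or_gt θ w with h | h
      · have h1 : w - θ < δ := by
          rw [← add_lt_add_iff_left θ, Ordinal.add_sub_cancel_of_le h]; exact hw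
        refine ⟨Order.succ (w - θ), hδlim.succ_lt h1, ?_⟩
        conv_lhs => rw [← Ordinal.add_sub_cancel_of_le h]
        exact (add_lt_add_iff_left θ).2 (Order.lt_succ _)
      · exact ⟨0, hδ0, by rw [add_zero]; exact h⟩
    obtain ⟨y, hy, h1, h2⟩ := hu v hv
    exact ⟨θ + y, hy, hwv.trans ((add_lt_add_iff_left θ).2 h1), (add_lt_add_iff_left θ).2 h2⟩

/-- The structure of generators on the successors of `ℵ_θ`, `θ = γ + 6`. -/
theorem exists_structure {α γ : Ordinal.{u}} {κ lam : Cardinal.{u}} (h0 : ℵ₀ ≤ κ)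
    (hκ : (α - γ).card = κ) (hκγ : κ ≤ ℵ_ γ) (hα : Order.IsSuccLimit α) (hγα : γ < α)
    (hlam : lam.IsRegular) (_hκlam : κ < lam)
    (hp : Cardinal.lift.{u+1} lam ≤ #(pcfS (ival (ℵ_ γ) (ℵ_ α)))) :
    ∃ (θ : Ordinal.{u}) (Y : Set Cardinal.{u}) (G : Cardinal.{u} → Set Cardinal.{u}),
      (θ = γ + (6 : ℕ) ∧ lam < ℵ_ θ) ∧
      Y ⊆ ival (ℵ_ γ) (ℵ_ α) ∧ #Y ≤ Cardinal.lift.{u+1} κ ∧
      (∀ l ∈ pcfS Y, G l ⊆ pcfS Y ∧ pcfS (G l) ⊆ G l ∧ (∀ m ∈ G l, m ≤ l) ∧
        ∀ m ∈ G l, G m ⊆ G l) ∧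
      (∀ Z ⊆ pcfS Y, ∀ l ∈ pcfS Z, l ∈ pcfS (Z ∩ G l)) ∧
      (∀ Z ⊆ pcfS Y, ∃ F : Set Cardinal.{u}, F.Finite ∧ F ⊆ pcfS Z ∧ Z ⊆ ⋃ m ∈ F, G m) ∧
      (∀ Z ⊆ pcfS Y, ∀ U ⊆ Y, Z ⊆ pcfS U → pcfS Z ⊆ pcfS U) ∧
      (∀ δ < lam.ord, idx θ δ ∈ pcfS Y) ∧
      (∀ β < lam.ord, ℵ₀ < β.cof → ∃ C, ClubIn C β ∧ ∀ δ ∈ C, δ < β → idx θ δ ∈ G (idx θ β)) := by
  classical
  have h6α : γ + (6 : ℕ) < α := by
    have h1 : ((6 : ℕ) : Ordinal.{u}) < α - γ :=
      (Ordinal.natCast_lt_omega0 6).trans_le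
        (Ordinal.omega0_le_of_isSuccLimit (sub_isSuccLimit hα hγα))
    exact Ordinal.lt_sub.1 h1
  set θ := γ + (6 : ℕ) with hθ
  set Y := ival (ℵ_ θ) (ℵ_ α) with hY
  set L := ival' (ℵ_ γ) (ℵ_ θ) with hL
  have hLfin : L.Finite := finite_ival γ 6
  have hLreg : ∀ κ ∈ L, κ.IsRegular := fun κ h => h.1
  have hYreg : ∀ κ ∈ Y, κ.IsRegular := fun κ h => h.1
  have hsplit : ival (ℵ_ γ) (ℵ_ α) = Y ∪ L := ival_split h6α
  have hpcf : pcfS (ival (ℵ_ γ) (ℵ_ α)) = pcfS Y ∪ L := by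
    rw [hsplit, pcfS_union, pcfS_finite hLfin hLreg]
  have hκ' : (α - θ).card ≤ κ := by
    rw [← hκ]
    refine Ordinal.card_le_card (Ordinal.sub_le.2 ?_)
    calc α ≤ γ + (α - γ) := Ordinal.le_add_sub _ _
      _ ≤ γ + (6 : ℕ) + (α - γ) := by
        rw [add_assoc]
        exact add_le_add_right le_add_self _
  have hρ := succN_le_aleph hκγ 6
  have hYsmall : Small.{u} Y := small_subset (show Y ⊆ Set.Iio (ℵ_ α) from fun κ h => h.2.2)
  have hle : #(pcfS Y) ≤ Cardinal.lift.{u+1} (succN κ 3) := pcf_le h0 hκ' hρ h6α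
  have hκa : ∀ m ∈ Y, succN κ 3 < m := fun m h =>
    ((succN_mono κ (by norm_num : 3 ≤ 6)).trans hρ).trans_lt h.2.1
  have hAsmall : Small.{u} (pcfS Y) := Cardinal.small_iff_lift_mk_lt_univ.2 (by
    refine lt_of_le_of_lt ?_ (Cardinal.lift_lt_univ (succN κ 3))
    simpa using hle)
  have hYA : Y ⊆ pcfS Y := self_subset_pcfS hYreg
  obtain ⟨G, hG1, hG2, hG3⟩ := exists_closed_generators (A := pcfS Y)
    (fun κ h => pcfS_isRegular h) (pcfS_pcfS hYreg subset_rfl hle hκa) (ν := succN κ 4)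
    (succN_isRegular h0 3) ((h0.trans (le_succN κ 3)).trans_lt (succN_lt κ 3))
    (hle.trans_lt (Cardinal.lift_lt.2 (succN_lt κ 3)))
    (fun θ hθ => lt_of_mem_pcfS hYreg (fun κ' h => hρ.trans_lt h.2.1) hθ)
  have hlam0 : ℵ₀ ≤ lam := hlam.1
  have hliftlam : ℵ₀ ≤ Cardinal.lift.{u+1} lam := Cardinal.aleph0_le_lift.2 hlam0
  -- the pcf of `Y` is big
  have hpY : Cardinal.lift.{u+1} lam ≤ #(pcfS Y) := by
    by_contra hcon
    push Not at hcon
    rw [hpcf] at hp
    refine absurd hp (not_le.2 ?_)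
    exact (Cardinal.mk_union_le _ _).trans_lt (Cardinal.add_lt_of_lt hliftlam hcon
      ((Cardinal.lt_aleph0_iff_set_finite.2 hLfin).trans_le hliftlam))
  have hlam3 : lam ≤ succN κ 3 := Cardinal.lift_le.1 (hpY.trans hle)
  have hYcard : #Y ≤ Cardinal.lift.{u+1} κ :=
    (mk_le_card' (x := α) (y := θ) fun μ hμ => ⟨hμ.2.1, hμ.2.2⟩).trans (Cardinal.lift_le.2 hκ')
  have hidx : ∀ δ < lam.ord, idx θ δ ∈ pcfS Y := by
    intro δ hδ
    by_contra hno
    have h1 : #(pcfS Y) ≤ Cardinal.lift.{u+1} (θ + δ + 1 - θ).card := by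
      refine mk_le_card' fun l hl => ⟨lt_of_mem_pcfS hYreg (fun κ h => h.2.1) hl, ?_⟩
      by_contra hcon
      push Not at hcon
      refine hno (nohole rfl ?_ (Cardinal.aleph0_le_aleph _) hl (isRegular_aleph_add_one _) ?_ hcon)
      · exact hYcard.trans (Cardinal.lift_le.2 (hκγ.trans (Cardinal.aleph_le_aleph.2 le_self_add)))
      · rw [idx, Cardinal.aleph_lt_aleph, add_assoc]
        exact lt_add_of_pos_right _ (by
          rw [← Order.succ_eq_add_one]; exact (zero_le).trans_lt (Order.lt_succ δ))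
    have h2 := hpY.trans h1
    rw [add_assoc, Ordinal.add_sub_cancel, Cardinal.lift_le] at h2
    have h3 : δ + 1 < lam.ord := by
      rw [← Order.succ_eq_add_one]
      exact (Cardinal.isSuccLimit_ord hlam0).succ_lt hδ
    exact absurd (Cardinal.lt_ord.1 h3) (not_lt.2 h2)
  have hlamθ : lam < ℵ_ θ := by
    refine hlam3.trans_lt ((succN_le_aleph hκγ 3).trans_lt (Cardinal.aleph_lt_aleph.2 ?_))
    rw [hθ]
    exact (add_lt_add_iff_left γ).2 (by norm_num)
  refine ⟨θ, Y, G, ⟨rfl, hlamθ⟩, ?_, hYcard, hG1, hG2, hG3, ?_, hidx, ?_⟩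
  · rw [hsplit]; exact subset_union_left
  · intro Z hZ U hU hZU
    have hUsmall : Small.{u} U := small_subset hU
    exact pcfS_pcfS (fun m hm => hYreg m (hU hm)) hZU
      ((Cardinal.mk_le_mk_of_subset hZ).trans hle) (fun m hm => hκa m (hU hm))
  · intro β hβ hβcof
    have hβlim : Order.IsSuccLimit β := Ordinal.one_lt_cof_iff.1 (one_lt_aleph0.trans hβcof)
    have hβ0 : 0 < β := pos_iff_ne_zero.2 (by
      rintro rfl; rw [Ordinal.cof_zero] at hβcof; exact not_lt_of_ge zero_le hβcof)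
    have hcof' : (θ + β).cof = β.cof := Ordinal.cof_add _ hβ0.ne'
    have hcard : (θ + β).card < ℵ_ θ := by
      rw [Ordinal.card_add]
      refine Cardinal.add_lt_of_lt (Cardinal.aleph0_le_aleph _) ?_ ?_
      · rw [hθ, Ordinal.card_add]
        refine Cardinal.add_lt_of_lt (Cardinal.aleph0_le_aleph _) ?_ ?_
        · exact (Helper23.Pcf.card_le_aleph γ).trans_lt (Cardinal.aleph_lt_aleph.2
            (lt_add_of_pos_right _ (by norm_num)))
        · rw [Ordinal.card_nat]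
          exact (Cardinal.natCast_lt_aleph0).trans_le (Cardinal.aleph0_le_aleph _)
      · refine (Cardinal.lt_ord.1 hβ).trans_le (hlam3.trans ?_)
        refine (succN_le_aleph hκγ 3).trans (Cardinal.aleph_le_aleph.2 ?_)
        rw [hθ]
        exact (add_le_add_iff_left γ).2 (by norm_num)
    obtain ⟨E, hE1, hE2, hE3, _⟩ := f5 (o₀ := θ) (o := θ + β) (Ordinal.isSuccLimit_add θ hβlim)
      (by rw [hcof']; exact hβcof) (lt_add_of_pos_right _ hβ0) hcard
    -- the exceptional set is bounded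
    have hbdd : ∃ x0 < β, ∀ δ, x0 < δ → δ < β → θ + δ ∈ E → idx θ δ ∈ G (idx θ β) := by
      by_contra hcon
      push Not at hcon
      let W : Set Ordinal.{u} := {δ | δ < β ∧ θ + δ ∈ E ∧ idx θ δ ∉ G (idx θ β)}
      have hWsmall : Small.{u} W := small_subset (show W ⊆ Set.Iio β from fun δ h => h.1)
      let J := Shrink.{u} W
      let w : J → Ordinal.{u} := fun j => ((equivShrink W).symm j).1
      have hwinj : Function.Injective w := fun i j h =>
        (equivShrink W).symm.injective (Subtype.ext h)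
      have hwmem : ∀ j, w j ∈ W := fun j => ((equivShrink W).symm j).2
      obtain ⟨D, hD⟩ := exists_tail_uf w hβ0 (by
        intro x hx
        obtain ⟨δ, h1, h2, h3, h4⟩ := hcon x hx
        exact ⟨equivShrink W ⟨δ, h2, h3, h4⟩, by simpa [w] using h1⟩)
      have hcofD : HasCof D (fun j => (ℵ_ (θ + w j + 1)).ord) (ℵ_ (θ + β + 1)) := by
        refine hE3 J (fun j => θ + w j) D ?_ ?_ ?_ ?_
        · intro i j h
          exact hwinj (add_left_cancel h)
        · intro j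
          exact ⟨(hE2 _ (hwmem j).2.1).1, (add_lt_add_iff_left θ).2 (hwmem j).1⟩
        · intro x hx
          rcases le_or_gt θ x with h | h
          · have h1 : x - θ < β := by
              rw [← add_lt_add_iff_left θ, Ordinal.add_sub_cancel_of_le h]; exact hx
            filter_upwards [hD _ h1] with j hj
            rw [← Ordinal.add_sub_cancel_of_le h]
            exact (add_lt_add_iff_left θ).2 hj
          · exact Filter.Eventually.of_forall fun j => h.trans_le le_self_add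
        · exact Filter.Eventually.of_forall fun j => (hwmem j).2.1
      have h1 : idx θ β ∈ pcfS (range fun j => idx θ (w j)) := by
        refine ⟨J, fun j => idx θ (w j), D, ?_, fun j => ⟨j, rfl⟩, hcofD⟩
        intro i j h
        exact hwinj (idx_inj h)
      have h2 : (range fun j => idx θ (w j)) ⊆ pcfS Y := by
        rintro _ ⟨j, rfl⟩
        exact hidx _ ((hwmem j).1.trans hβ)
      have h3 := hG2 _ h2 _ h1
      have h4 : (range fun j => idx θ (w j)) ∩ G (idx θ β) = ∅ := by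
        rw [Set.eq_empty_iff_forall_notMem]
        rintro _ ⟨⟨j, rfl⟩, h⟩
        exact (hwmem j).2.2 h
      rw [h4, pcfS_empty] at h3
      exact h3
    obtain ⟨x0, hx0, hx0'⟩ := hbdd
    refine ⟨{δ | θ + δ ∈ E} ∩ Ioi x0, club_inter hβcof (club_shift hβlim hE1)
      (club_Ioi hβlim hx0), ?_⟩
    rintro δ ⟨h1, h2⟩ h3
    exact hx0' δ h2 h3 h1

end Helper85.Refl
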